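import Pool.Agent.Helper91.GP.Defs

/-!
# Board GP: the conditional expectation of `x^* x`
-/

open CategoryTheory MonoidalCategory Limits BraidedCategory

universe u v w

namespace Pool.Agent.Helper91.GP

open Pool.Agent.TH90.AB Pool.Agent.TH90.Kim Pool.Agent.Helper96.Kim Pool.Agent.Helper96.SP

set_option linter.unusedSectionVars false

namespace OME

lemma up_zero {n : ℕ} (σ : Equiv.Perm (Fin n)) : up σ 0 = 0 :=
  Equiv.Perm.decomposeFin_symm_apply_zero _ _

lemma up_succ {n : ℕ} (σ : Equiv.Perm (Fin n)) (i : Fin n) : up σ i.succ = (σ i).succ := by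
  unfold up
  rw [Equiv.Perm.decomposeFin_symm_apply_succ, Equiv.swap_self]
  rfl

lemma up_mul {n : ℕ} (σ τ : Equiv.Perm (Fin n)) : up (σ * τ) = up σ * up τ := by
  ext x
  induction x using Fin.cases with
  | zero => rw [Equiv.Perm.mul_apply, up_zero, up_zero, up_zero]
  | succ x => rw [Equiv.Perm.mul_apply, up_succ, up_succ, up_succ, Equiv.Perm.mul_apply]

lemma dec_eq {n : ℕ} (p : Fin (n + 1)) (e : Equiv.Perm (Fin n)) :
    Equiv.Perm.decomposeFin.symm (p, e) = Equiv.swap 0 p * up e := by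
  ext x
  induction x using Fin.cases with
  | zero =>
    rw [Equiv.Perm.decomposeFin_symm_apply_zero, Equiv.Perm.mul_apply, up_zero,
      Equiv.swap_apply_left]
  | succ x => rw [Equiv.Perm.decomposeFin_symm_apply_succ, Equiv.Perm.mul_apply, up_succ]

lemma via_eq {n : ℕ} (e : Equiv.Perm (Fin n)) :
    Equiv.Perm.viaEmbeddingHom (Fin.addNatEmb 1 : Fin n ↪ Fin (n + 1)) e = up e := by
  refine Equiv.ext fun x => ?_
  rw [Equiv.Perm.viaEmbeddingHom_apply]
  induction x using Fin.cases with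
  | zero =>
    rw [up_zero]
    refine Equiv.Perm.viaEmbedding_apply_of_notMem _ _ _ ?_
    rintro ⟨i, hi⟩
    exact Fin.succ_ne_zero i hi
  | succ x =>
    rw [up_succ]
    exact Equiv.Perm.viaEmbedding_apply e (Fin.addNatEmb 1 : Fin n ↪ Fin (n + 1)) x

lemma upA_single {n : ℕ} (e : Equiv.Perm (Fin n)) (c : ℚ) :
    upA n (MonoidAlgebra.single e c) = MonoidAlgebra.single (up e) c := by
  unfold upA
  rw [← via_eq]
  simp [emb]

/-- The coefficients of `x^* y`. -/
lemma coeff_adj_mul {n : ℕ} (x y : QS n) (k : Equiv.Perm (Fin n)) :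
    (adj x * y).coeff k = ∑ h, x.coeff h * y.coeff (h * k) := by
  unfold adj
  rw [Finset.sum_mul, MonoidAlgebra.coeff_sum, Finsupp.finsetSum_apply]
  refine Finset.sum_congr rfl fun h _ => ?_
  rw [MonoidAlgebra.coeff_single_mul_apply, inv_inv]

lemma sum_single {n : ℕ} (x : QS n) :
    ∑ g : Equiv.Perm (Fin n), MonoidAlgebra.single g (x.coeff g) = x := by
  apply MonoidAlgebra.coeff_injective
  ext k
  rw [MonoidAlgebra.coeff_sum, Finsupp.finsetSum_apply, Finset.sum_eq_single k]
  · rw [MonoidAlgebra.coeff_single, Finsupp.single_eq_same]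
  · intro b _ hb
    rw [MonoidAlgebra.coeff_single, Finsupp.single_eq_of_ne hb.symm]
  · intro h
    exact absurd (Finset.mem_univ _) h

lemma coeff_mk {n : ℕ} (f : Equiv.Perm (Fin n) → ℚ) (k : Equiv.Perm (Fin n)) :
    (∑ g : Equiv.Perm (Fin n), MonoidAlgebra.single g (f g) : QS n).coeff k = f k := by
  rw [MonoidAlgebra.coeff_sum, Finsupp.finsetSum_apply, Finset.sum_eq_single k]
  · rw [MonoidAlgebra.coeff_single, Finsupp.single_eq_same]
  · intro b _ hb
    rw [MonoidAlgebra.coeff_single, Finsupp.single_eq_of_ne hb.symm]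
  · intro h
    exact absurd (Finset.mem_univ _) h

/-- The components of `x`. -/
noncomputable def cp {n : ℕ} (x : QS (n + 1)) (p : Fin (n + 1)) : QS n :=
  ∑ e : Equiv.Perm (Fin n), MonoidAlgebra.single e
    (x.coeff (Equiv.Perm.decomposeFin.symm (p, e)))

/-- `x` is the sum of its components. -/
lemma cp_sum {n : ℕ} (x : QS (n + 1)) :
    x = ∑ p : Fin (n + 1), MonoidAlgebra.single (Equiv.swap 0 p) (1 : ℚ) * upA n (cp x p) := by
  conv_lhs => rw [← sum_single x]
  rw [← Equiv.sum_comp Equiv.Perm.decomposeFin.symm, Fintype.sum_prod_type]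
  refine Finset.sum_congr rfl fun p _ => ?_
  unfold cp
  rw [map_sum, Finset.mul_sum]
  refine Finset.sum_congr rfl fun e _ => ?_
  rw [upA_single, MonoidAlgebra.single_mul_single, one_mul, ← dec_eq]

/-- The conditional expectation of `x^* x`. -/
lemma cE_adj_mul {n : ℕ} (x : QS (n + 1)) :
    cE n (adj x * x) = ∑ p : Fin (n + 1), adj (cp x p) * cp x p := by
  apply MonoidAlgebra.coeff_injective
  ext g
  unfold cE
  rw [coeff_mk (fun g => (adj x * x).coeff (up g)), coeff_adj_mul,
    ← Equiv.sum_comp Equiv.Perm.decomposeFin.symm, Fintype.sum_prod_type, MonoidAlgebra.coeff_sum,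
    Finsupp.finsetSum_apply]
  refine Finset.sum_congr rfl fun p _ => ?_
  rw [coeff_adj_mul]
  refine Finset.sum_congr rfl fun e _ => ?_
  unfold cp
  rw [coeff_mk, coeff_mk, dec_eq, dec_eq, mul_assoc, up_mul]

lemma tau_sum {ι : Type} (s : Finset ι) (D n : ℕ) (z : ι → QS n) :
    tau D n (∑ i ∈ s, z i) = ∑ i ∈ s, tau D n (z i) := by
  unfold tau
  rw [map_sum, map_sum]

end OME

/-- Package OME, from STAR (`tau_nonneg`, `tau_faithful`) and KER (`up_act`). -/
theorem ome_of (hnn : ∀ (D n : ℕ) (x : QS n), 0 ≤ tau D n (adj x * x))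
    (hf : ∀ (D n : ℕ) (x : QS n), tau D n (adj x * x) = 0 → act D n x = 0)
    (hup : ∀ (D n : ℕ) (x : QS n), act D n x = 0 → act D (n + 1) (upA n x) = 0)
    (D n : ℕ) (x : QS (n + 1)) (h : tau D n (cE n (adj x * x)) = 0) :
    act D (n + 1) x = 0 := by
  rw [OME.cE_adj_mul, OME.tau_sum,
    Finset.sum_eq_zero_iff_of_nonneg fun p _ => hnn D n _] at h
  rw [OME.cp_sum x, map_sum]
  refine Finset.sum_eq_zero fun p hp => ?_
  rw [map_mul, hup D n _ (hf D n _ (h p hp)), mul_zero]

end Pool.Agent.Helper91.GP
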