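import Pool.Agent.Helper91.GP.Defs

/-!
# Board GP, package CEN: the dimension of the centralizer of the permutations of words
-/

open CategoryTheory MonoidalCategory Limits BraidedCategory

namespace Pool.Agent.Helper91.GP

open Pool.Agent.TH90.AB Pool.Agent.TH90.Kim Pool.Agent.Helper96.Kim Pool.Agent.Helper96.SP

noncomputable section

namespace QCENX

/-- the number of positions with a given value -/
def ty {n : ℕ} {α : Type} [DecidableEq α] (u : Fin n → α) (c : α) : Fin (n + 1) :=
  ⟨(Finset.univ.filter fun i => u i = c).card, Nat.lt_succ_of_le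
    ((Finset.card_le_univ _).trans (by rw [Fintype.card_fin]))⟩

theorem exists_perm_of_ty {n : ℕ} {α : Type} [DecidableEq α] {u v : Fin n → α} (h : ty u = ty v) :
    ∃ g : Equiv.Perm (Fin n), ∀ i, v (g i) = u i := by
  have hc : ∀ c : α, Fintype.card {i // u i = c} = Fintype.card {i // v i = c} := by
    intro c
    have h1 := congrArg Fin.val (congrFun h c)
    rw [Fintype.card_subtype, Fintype.card_subtype]
    exact h1
  let e : ∀ c : α, {i // u i = c} ≃ {i // v i = c} := fun c => Fintype.equivOfCardEq (hc c)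
  refine ⟨(Equiv.sigmaFiberEquiv u).symm.trans
    ((Equiv.sigmaCongrRight e).trans (Equiv.sigmaFiberEquiv v)), fun i => ?_⟩
  exact (e (u i) ⟨i, rfl⟩).2

theorem act_single (D n : ℕ) (g : Equiv.Perm (Fin n)) (f : (Fin n → Fin D) → ℚ)
    (w : Fin n → Fin D) : act D n (MonoidAlgebra.single g 1) f w = f (w ∘ g) := by
  unfold act
  rw [MonoidAlgebra.lift_single, one_smul]
  rfl

theorem act_basis (D n : ℕ) (g : Equiv.Perm (Fin n)) (w' : Fin n → Fin D) :
    act D n (MonoidAlgebra.single g 1) (Pi.single (w' ∘ g) 1) = Pi.single w' 1 := by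
  funext w
  rw [act_single]
  by_cases h : w = w'
  · subst h
    rw [Pi.single_eq_same, Pi.single_eq_same]
  · rw [Pi.single_eq_of_ne h, Pi.single_eq_of_ne]
    intro h'
    apply h
    funext i
    have := congrFun h' (g.symm i)
    simpa using this

/-- the matrix entries -/
theorem entry (D n : ℕ) (f : Module.End ℚ ((Fin n → Fin D) → ℚ))
    (hf : f ∈ Subalgebra.centralizer ℚ (Set.range (act D n))) (g : Equiv.Perm (Fin n))
    (w w' : Fin n → Fin D) :
    f (Pi.single (w' ∘ g) 1) (w ∘ g) = f (Pi.single w' 1) w := by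
  have h1 := (Subalgebra.mem_centralizer_iff ℚ).1 hf (act D n (MonoidAlgebra.single g 1))
    ⟨_, rfl⟩
  have h2 := congrArg (fun φ : Module.End ℚ ((Fin n → Fin D) → ℚ) =>
    φ (Pi.single (w' ∘ g) 1) w) h1
  have h3 : act D n (MonoidAlgebra.single g 1) (f (Pi.single (w' ∘ g) 1)) w =
      f (act D n (MonoidAlgebra.single g 1) (Pi.single (w' ∘ g) 1)) w := h2
  rw [act_single, act_basis] at h3
  exact h3

open Classical in
/-- a representative of a type -/
def rep (D n : ℕ) (t : Fin D × Fin D → Fin (n + 1)) : (Fin n → Fin D) × (Fin n → Fin D) → Prop :=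
  fun p => ty (fun i => (p.1 i, p.2 i)) = t

open Classical in
/-- the entries at the representatives -/
def psi (D n : ℕ) : Module.End ℚ ((Fin n → Fin D) → ℚ) →ₗ[ℚ]
    ((Fin D × Fin D → Fin (n + 1)) → ℚ) where
  toFun f t := if h : ∃ p, rep D n t p then f (Pi.single h.choose.2 1) h.choose.1 else 0
  map_add' a b := by
    funext t
    simp only [Pi.add_apply, LinearMap.add_apply]
    split_ifs <;> simp
  map_smul' c a := by
    funext t
    simp only [Pi.smul_apply, LinearMap.smul_apply, RingHom.id_apply]
    split_ifs <;> simp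

theorem psi_inj (D n : ℕ) (f : Module.End ℚ ((Fin n → Fin D) → ℚ))
    (hf : f ∈ Subalgebra.centralizer ℚ (Set.range (act D n))) (h0 : psi D n f = 0) : f = 0 := by
  classical
  have h1 : ∀ w w' : Fin n → Fin D, f (Pi.single w' 1) w = 0 := by
    intro w w'
    have hex : ∃ p, rep D n (ty fun i => (w i, w' i)) p := ⟨(w, w'), rfl⟩
    have h2 := congrFun h0 (ty fun i => (w i, w' i))
    have h3 : f (Pi.single hex.choose.2 1) hex.choose.1 = 0 := by
      have h4 : psi D n f (ty fun i => (w i, w' i)) =
        if h : ∃ p, rep D n (ty fun i => (w i, w' i)) p then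
          f (Pi.single h.choose.2 1) h.choose.1 else 0 := rfl
      rw [h4, dif_pos hex] at h2
      exact h2
    have h4 : ty (fun i => (hex.choose.1 i, hex.choose.2 i)) = ty fun i => (w i, w' i) :=
      hex.choose_spec
    obtain ⟨g, hg⟩ := exists_perm_of_ty h4.symm
    have h5 : hex.choose.1 ∘ g = w := funext fun i => congrArg Prod.fst (hg i)
    have h6 : hex.choose.2 ∘ g = w' := funext fun i => congrArg Prod.snd (hg i)
    have h7 := entry D n f hf g hex.choose.1 hex.choose.2
    rw [h5, h6, h3] at h7
    exact h7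
  refine LinearMap.pi_ext' fun w' => ?_
  refine LinearMap.ext_ring ?_
  funext w
  exact h1 w w'

end QCENX

open QCENX in
/-- `(D ^ 2)`-variable multiplicities -/
theorem centralizer_le (D n : ℕ) :
    Module.finrank ℚ (Subalgebra.centralizer ℚ (Set.range (act D n))) ≤ (n + 1) ^ (D ^ 2) := by
  let ψ : (Subalgebra.centralizer ℚ (Set.range (act D n))) →ₗ[ℚ]
      ((Fin D × Fin D → Fin (n + 1)) → ℚ) :=
    (psi D n).comp (Subalgebra.centralizer ℚ (Set.range (act D n))).val.toLinearMap
  have hψ : Function.Injective ψ := by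
    intro a b hab
    have h1 : psi D n a.1 = psi D n b.1 := hab
    have h2 : psi D n (a.1 - b.1) = 0 := by rw [map_sub, h1, sub_self]
    exact Subtype.ext (sub_eq_zero.1 (psi_inj D n (a.1 - b.1) (sub_mem a.2 b.2) h2))
  refine (LinearMap.finrank_le_finrank_of_injective hψ).trans (le_of_eq ?_)
  rw [Module.finrank_fintype_fun_eq_card, Fintype.card_fun, Fintype.card_prod, Fintype.card_fin,
    Fintype.card_fin, sq]

end

end Pool.Agent.Helper91.GP
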