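import Pool.Agent.Helper91.GP.Defs
import Mathlib.RingTheory.SimpleModule.Basic
import Mathlib.RepresentationTheory.Maschke
import Mathlib.LinearAlgebra.Dimension.Finite
import Mathlib.Algebra.Algebra.Subalgebra.Basic
import Mathlib.LinearAlgebra.FiniteDimensional.Basic

/-! GP: package RANK (helper89). -/

open CategoryTheory MonoidalCategory Limits BraidedCategory

namespace Pool.Agent.Helper91.GP

open Pool.Agent.TH90.AB Pool.Agent.TH90.Kim Pool.Agent.Helper96.Kim Pool.Agent.Helper96.SP

theorem rank_le_gen {R : Type} [Ring R] [Algebra ℚ R] [IsSemisimpleRing R] {H : Type} [AddCommGroup H]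
    [Module ℚ H] [FiniteDimensional ℚ H] (ρ : R →ₐ[ℚ] Module.End ℚ H) (e : R) (he : e * e = e)
    (hs : IsSimpleModule R (Submodule.span R {e})) :
    Module.finrank ℚ (LinearMap.range (ρ e)) ≤
      Module.finrank ℚ (Subalgebra.centralizer ℚ (Set.range ρ)) := by
  classical
  by_cases h0 : ρ e = 0
  · rw [h0, LinearMap.range_zero, finrank_bot]; exact Nat.zero_le _
  obtain ⟨h, hh⟩ : ∃ h, ρ e h ≠ 0 := by
    by_contra hc
    push Not at hc
    exact h0 (LinearMap.ext hc)
  let _ : Module R H := Module.compHom H ρ.toRingHom
  have hsm : ∀ (r : R) (x : H), r • x = ρ r x := fun r x => rfl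
  have htow : IsScalarTower ℚ R H := by
    refine ⟨fun q r x => ?_⟩
    rw [hsm, hsm, map_smul, LinearMap.smul_apply]
  let u : H := ρ e h
  let j : Submodule.span R {e} →ₗ[R] H := (LinearMap.toSpanSingleton R H u).comp (Submodule.subtype _)
  let e' : Submodule.span R {e} := ⟨e, Submodule.mem_span_singleton_self e⟩
  have hu : e • u = u := by
    show ρ e (ρ e h) = ρ e h
    rw [← Module.End.mul_apply, ← map_mul, he]
  have hje : j e' = u := hu
  have hj0 : j ≠ 0 := by
    intro hc
    apply hh
    show u = 0
    rw [← hje, hc, LinearMap.zero_apply]
  have hinj : Function.Injective j := (LinearMap.injective_or_eq_zero j).resolve_right hj0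
  obtain ⟨π, hπ⟩ := IsSemisimpleModule.extension_property j hinj LinearMap.id
  have hπu : π u = e' := by
    rw [← hje]
    exact LinearMap.congr_fun hπ e'
  -- the map
  let Φ : LinearMap.range (ρ e) →ₗ[ℚ] Subalgebra.centralizer ℚ (Set.range ρ) :=
    { toFun := fun w => ⟨{ toFun := fun x => ((π x : R)) • (w : H)
                           map_add' := by
                            intro a b
                            rw [map_add, Submodule.coe_add, add_smul]
                           map_smul' := by
                            intro q a
                            have h1 : q • a = (algebraMap ℚ R q) • a := (algebraMap_smul R q a).symm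
                            rw [h1, map_smul, Submodule.coe_smul, smul_eq_mul, mul_smul,
                              algebraMap_smul]
                            rfl }, by
                          rintro _ ⟨r, rfl⟩
                          ext x
                          show r • ((π x : R) • (w : H)) = ((π (r • x) : R)) • (w : H)
                          rw [map_smul π r x, Submodule.coe_smul, smul_eq_mul, mul_smul]⟩
      map_add' := by
        intro a b
        ext x
        show (π x : R) • ((a : H) + (b : H)) = (π x : R) • (a : H) + (π x : R) • (b : H)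
        rw [smul_add]
      map_smul' := by
        intro q a
        ext x
        show (π x : R) • (q • (a : H)) = q • ((π x : R) • (a : H))
        rw [hsm, hsm, map_smul] }
  have hΦ : Function.Injective Φ := by
    rw [injective_iff_map_eq_zero]
    intro w hw
    have h1 : ((Φ w : Module.End ℚ H)) u = 0 := by rw [hw]; rfl
    have h2 : ((π u : R)) • (w : H) = 0 := h1
    rw [hπu] at h2
    obtain ⟨w, y, rfl⟩ := w
    have h3 : e • (ρ e y) = 0 := h2
    apply Subtype.ext
    show ρ e y = 0
    rw [← h3]
    show ρ e y = ρ e (ρ e y)
    rw [← Module.End.mul_apply, ← map_mul, he]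
  exact LinearMap.finrank_le_finrank_of_injective hΦ

theorem rank_le {n : ℕ} {H : Type} [AddCommGroup H] [Module ℚ H] [FiniteDimensional ℚ H]
    (ρ : QS n →ₐ[ℚ] Module.End ℚ H) (e : QS n) (he : e * e = e)
    (hs : IsSimpleModule (QS n) (Submodule.span (QS n) {e})) :
    Module.finrank ℚ (LinearMap.range (ρ e)) ≤
      Module.finrank ℚ (Subalgebra.centralizer ℚ (Set.range ρ)) :=
  rank_le_gen ρ e he hs

end Pool.Agent.Helper91.GP
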