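import Pool.Agent.Helper91.GP.Defs
import Mathlib.RingTheory.SimpleModule.Basic
import Mathlib.RepresentationTheory.Maschke

/-!
# Board GP, package SEM: primitive idempotents of the group algebra (helper33)
-/

open CategoryTheory MonoidalCategory Limits BraidedCategory

namespace Pool.Agent.Helper91.GP

open Pool.Agent.TH90.AB Pool.Agent.TH90.Kim Pool.Agent.Helper96.Kim Pool.Agent.Helper96.SP

namespace SEM

theorem general (R : Type) [Ring R] [IsSemisimpleRing R] : ∃ (s : ℕ) (e : Fin s → R),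
    (∀ i, e i * e i = e i) ∧ (∀ i j, i ≠ j → e i * e j = 0) ∧ (∑ i, e i = 1) ∧
    ∀ i, IsSimpleModule R (Submodule.span R {e i}) := by
  classical
  obtain ⟨s, S, φ, hS⟩ := IsSemisimpleModule.exists_linearEquiv_fin_dfinsupp R R
  have hφ : ∀ x : R, φ x = x • φ 1 := fun x => by
    rw [← map_smul, smul_eq_mul, mul_one]
  have hcomp : ∀ (x : R) (i : Fin s), φ x i = x • φ 1 i := fun x i => by
    rw [hφ x]; rfl
  set ψ : ∀ i : Fin s, S i →ₗ[R] R := fun i =>
    φ.symm.toLinearMap ∘ₗ DFinsupp.lsingle (R := R) (M := fun i => S i) i with hψ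
  have hψ1 : ∀ i (y : S i), φ (ψ i y) = DFinsupp.single i y := fun i y => by
    show φ (φ.symm _) = _
    rw [LinearEquiv.apply_symm_apply]
    rfl
  have hinj : ∀ i, Function.Injective (ψ i) := by
    intro i a b hab
    have h1 := congrArg φ hab
    rw [hψ1, hψ1] at h1
    have h2 := congrArg (fun f : Π₀ i, S i => f i) h1
    simpa only [DFinsupp.single_eq_same] using h2
  set e : Fin s → R := fun i => ψ i (φ 1 i) with he
  have hmul : ∀ (x : R) (i : Fin s), x * e i = ψ i (φ x i) := by
    intro x i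
    show x • ψ i (φ 1 i) = _
    rw [hcomp x i, map_smul]
  have hφe : ∀ i j, φ (e i) j = if i = j then φ 1 j else 0 := by
    intro i j
    rw [he]
    show φ (ψ i (φ 1 i)) j = _
    rw [hψ1, DFinsupp.single_apply]
    split_ifs with h
    · subst h; rfl
    · rfl
  refine ⟨s, e, ?_, ?_, ?_, ?_⟩
  · intro i
    rw [hmul, hφe, if_pos rfl]
  · intro i j hij
    rw [hmul, hφe, if_neg hij, map_zero]
  · apply φ.injective
    ext1 j
    rw [map_sum]
    have h1 : (∑ i, φ (e i)) j = ∑ i, φ (e i) j := DFinsupp.finsetSum_apply _ _ _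
    rw [h1, Finset.sum_congr rfl fun i _ => hφe i j, Finset.sum_ite_eq' Finset.univ j]
    simp
  · intro i
    have hr : Submodule.span R {e i} = LinearMap.range (ψ i) := by
      apply le_antisymm
      · rw [Submodule.span_singleton_le_iff_mem]
        exact ⟨_, rfl⟩
      · rintro _ ⟨y, rfl⟩
        rw [Submodule.mem_span_singleton]
        refine ⟨φ.symm (DFinsupp.single i y), ?_⟩
        rw [smul_eq_mul, hmul, LinearEquiv.apply_symm_apply, DFinsupp.single_eq_same]
    rw [hr]
    have := hS i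
    exact IsSimpleModule.congr (LinearEquiv.ofInjective (ψ i) (hinj i)).symm

end SEM

theorem sem (n : ℕ) : ∃ (s : ℕ) (e : Fin s → QS n), (∀ i, e i * e i = e i) ∧
    (∀ i j, i ≠ j → e i * e j = 0) ∧ (∑ i, e i = 1) ∧
    ∀ i, IsSimpleModule (QS n) (Submodule.span (QS n) {e i}) := by
  have : NeZero (Nat.card (Equiv.Perm (Fin n)) : ℚ) := ⟨by
    rw [Nat.cast_ne_zero]
    exact Nat.card_pos.ne'⟩
  exact SEM.general (QS n)

end Pool.Agent.Helper91.GP
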