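import Pool.Agent.Helper91.GP.Defs

/-!
# Board GP, package FIN: the last step
-/

open CategoryTheory MonoidalCategory Limits BraidedCategory

universe u v w

namespace Pool.Agent.Helper91.GP

open Pool.Agent.TH90.AB Pool.Agent.TH90.Kim Pool.Agent.Helper96.Kim Pool.Agent.Helper96.SP

theorem fin_act_single (D n : ℕ) (g : Equiv.Perm (Fin n)) (c : ℚ) (f : (Fin n → Fin D) → ℚ)
    (w : Fin n → Fin D) : act D n (MonoidAlgebra.single g c) f w = c * f (w ∘ g) := by
  unfold act
  rw [MonoidAlgebra.lift_single]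
  rfl

theorem fin_viaEmb_swap {α β : Type*} [DecidableEq α] [DecidableEq β] (ι : α ↪ β) (a b : α) :
    (Equiv.swap a b).viaEmbedding ι = Equiv.swap (ι a) (ι b) := by
  ext x
  by_cases hx : x ∈ Set.range ι
  · obtain ⟨y, rfl⟩ := hx
    rw [Equiv.Perm.viaEmbedding_apply]
    exact (ι.injective.map_swap a b y)
  · rw [Equiv.Perm.viaEmbedding_apply_of_notMem _ _ _ hx, Equiv.swap_apply_of_ne_of_ne]
    · rintro rfl; exact hx ⟨a, rfl⟩
    · rintro rfl; exact hx ⟨b, rfl⟩

theorem fin_upA_JM (n : ℕ) : upA (n + 1) (JM n) =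
    MonoidAlgebra.single (Equiv.swap 0 1) 1 * JM (n + 1) *
      MonoidAlgebra.single (Equiv.swap 0 1) 1 - MonoidAlgebra.single (Equiv.swap 0 1) 1 := by
  have h1 : upA (n + 1) (JM n) =
      ∑ i : Fin n, MonoidAlgebra.single (Equiv.swap (1 : Fin (n + 2)) i.succ.succ) (1 : ℚ) := by
    unfold upA JM
    rw [map_sum]
    refine Finset.sum_congr rfl fun i _ => ?_
    have : (emb (Fin.addNatEmb 1) : QS (n + 1) →ₐ[ℚ] QS (n + 2))
        (MonoidAlgebra.single (Equiv.swap 0 i.succ) 1) =
        MonoidAlgebra.single (Equiv.Perm.viaEmbeddingHom (Fin.addNatEmb 1)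
          (Equiv.swap (0 : Fin (n + 1)) i.succ)) 1 := by
      exact MonoidAlgebra.mapDomain_single
    rw [this, Equiv.Perm.viaEmbeddingHom_apply, fin_viaEmb_swap]
    rfl
  rw [h1]
  unfold JM
  rw [Fin.sum_univ_succ, mul_add, add_mul, Finset.mul_sum, Finset.sum_mul]
  have h2 : ∀ i : Fin n, MonoidAlgebra.single (Equiv.swap (0 : Fin (n + 2)) 1) (1 : ℚ) *
      MonoidAlgebra.single (Equiv.swap (0 : Fin (n + 2)) i.succ.succ) (1 : ℚ) *
      MonoidAlgebra.single (Equiv.swap (0 : Fin (n + 2)) 1) (1 : ℚ) =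
      MonoidAlgebra.single (Equiv.swap (1 : Fin (n + 2)) i.succ.succ) (1 : ℚ) := by
    intro i
    rw [MonoidAlgebra.single_mul_single, MonoidAlgebra.single_mul_single]
    congr 1
    · have := Equiv.swap_apply_apply (Equiv.swap (0 : Fin (n + 2)) 1) 0 i.succ.succ
      rw [Equiv.swap_apply_left, Equiv.swap_inv, Equiv.swap_apply_of_ne_of_ne] at this
      · exact this.symm
      · exact Fin.succ_ne_zero _
      · intro h
        have := congrArg Fin.val h
        simp at this
    · simp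
  have h3 : MonoidAlgebra.single (Equiv.swap (0 : Fin (n + 2)) 1) (1 : ℚ) *
      MonoidAlgebra.single (Equiv.swap (0 : Fin (n + 2)) (Fin.succ 0)) (1 : ℚ) *
      MonoidAlgebra.single (Equiv.swap (0 : Fin (n + 2)) 1) (1 : ℚ) =
      MonoidAlgebra.single (Equiv.swap (0 : Fin (n + 2)) 1) (1 : ℚ) := by
    rw [MonoidAlgebra.single_mul_single, MonoidAlgebra.single_mul_single]
    congr 1
    · show Equiv.swap (0 : Fin (n + 2)) 1 * Equiv.swap 0 1 * Equiv.swap 0 1 = _
      rw [Equiv.swap_mul_self, one_mul]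
    · simp
  rw [h3, Finset.sum_congr rfl fun i _ => h2 i]
  abel

theorem fin_alt (D n : ℕ) (h : D < n) : act D n (alt (-1) n) = 0 := by
  refine LinearMap.ext fun f => funext fun w => ?_
  obtain ⟨i, j, hij, hw⟩ : ∃ i j, i ≠ j ∧ w i = w j := by
    obtain ⟨i, j, h1, h2⟩ := Fintype.exists_ne_map_eq_of_card_lt w (by simpa using h)
    exact ⟨i, j, h1, h2⟩
  have hs : act D n (alt (-1) n) f w =
      ∑ g : Equiv.Perm (Fin n), (((Equiv.Perm.sign g : ℤ) : ℚ)) * f (w ∘ g) := by
    unfold alt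
    rw [map_sum, LinearMap.sum_apply, Finset.sum_apply]
    refine Finset.sum_congr rfl fun g _ => ?_
    rw [fin_act_single]
    unfold sg
    rw [if_neg (by norm_num)]
  have hinv : ∑ g : Equiv.Perm (Fin n), (((Equiv.Perm.sign g : ℤ) : ℚ)) * f (w ∘ g) =
      - ∑ g : Equiv.Perm (Fin n), (((Equiv.Perm.sign g : ℤ) : ℚ)) * f (w ∘ g) := by
    rw [← Finset.sum_neg_distrib]
    refine Fintype.sum_equiv (Equiv.mulLeft (Equiv.swap i j)) _ _ fun g => ?_
    have hwg : w ∘ ((Equiv.mulLeft (Equiv.swap i j)) g) = w ∘ g := by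
      funext k
      show w (Equiv.swap i j (g k)) = w (g k)
      by_cases h1 : g k = i
      · rw [h1, Equiv.swap_apply_left, hw]
      · by_cases h2 : g k = j
        · rw [h2, Equiv.swap_apply_right, hw]
        · rw [Equiv.swap_apply_of_ne_of_ne h1 h2]
    rw [hwg]
    have : Equiv.Perm.sign ((Equiv.mulLeft (Equiv.swap i j)) g) = - Equiv.Perm.sign g := by
      show Equiv.Perm.sign (Equiv.swap i j * g) = _
      rw [map_mul, Equiv.Perm.sign_swap hij]
      simp
    rw [this]
    push_cast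
    ring
  rw [hs]
  show _ = (0 : ℚ)
  linarith

theorem fin_alg {B : Type*} [Ring B] [Algebra ℚ B] (X S J J' Q K : B) (d : ℚ)
    (hSS : S * S = 1) (h1 : X * (J + algebraMap ℚ B d) = 0)
    (h2 : X * S * (J + algebraMap ℚ B d) = 0) (hJ' : J' = S * J * S - S)
    (hK : 1 = K + (J' + algebraMap ℚ B (d + 1)) * Q) (hK0 : K = 0) : X * S = - X := by
  have hx1 : X * J = - (d • X) := by
    rw [mul_add] at h1
    rw [eq_neg_of_add_eq_zero_left h1, Algebra.algebraMap_eq_smul_one, mul_smul_comm, mul_one]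
  have hx2 : X * S * J = - (d • (X * S)) := by
    rw [mul_add] at h2
    rw [eq_neg_of_add_eq_zero_left h2, Algebra.algebraMap_eq_smul_one, mul_smul_comm, mul_one]
  have hYJ : (X + X * S) * J' = - ((d + 1) • (X + X * S)) := by
    have e1 : (X + X * S) * (S * J * S - S) =
        (X * S * J) * S + X * (S * S) * J * S - X * S - X * (S * S) := by
      noncomm_ring
    rw [hJ', e1, hx2, hSS, mul_one, hx1]
    have e2 : -(d • (X * S)) * S = - (d • (X * (S * S))) := by
      rw [neg_mul, smul_mul_assoc, mul_assoc]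
    rw [e2, hSS, mul_one, neg_mul, smul_mul_assoc]
    module
  have hY0 : X + X * S = 0 := by
    calc X + X * S = (X + X * S) * 1 := (mul_one _).symm
      _ = (X + X * S) * K + ((X + X * S) * J' + (X + X * S) * algebraMap ℚ B (d + 1)) * Q := by
          rw [hK]; noncomm_ring
      _ = 0 := by
          rw [hK0, hYJ, Algebra.algebraMap_eq_smul_one, mul_smul_comm, mul_one, neg_add_cancel,
            zero_mul, add_zero, mul_zero]
  exact eq_neg_of_add_eq_zero_right hY0

theorem fin_neg {B : Type*} [Ring B] (X Y Z : B) (h : X = - Y) : X * Z = - (Y * Z) := by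
  rw [h, neg_mul]

theorem fin_pre (d n : ℕ)
    (ker_decomp : ∃ k q : QS (n + 1),
      1 = k + (JM n + algebraMap ℚ _ ((d + 1 : ℕ) : ℚ)) * q ∧
      (JM n + algebraMap ℚ _ ((d + 1 : ℕ) : ℚ)) * k = 0 ∧ act (d + 1) (n + 1) k = 0)
    (up_act : ∀ x : QS (n + 1), act (d + 1) (n + 1) x = 0 →
      act (d + 1) (n + 2) (upA (n + 1) x) = 0)
    (x : QS (n + 2))
    (h : ∀ g : Equiv.Perm (Fin (n + 2)), act (d + 1) (n + 2)
      (x * MonoidAlgebra.single g 1 * (JM (n + 1) + algebraMap ℚ _ (d : ℚ))) = 0) :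
    act (d + 1) (n + 2) (x * MonoidAlgebra.single (Equiv.swap 0 1) 1) =
      - act (d + 1) (n + 2) x := by
  obtain ⟨k, q, h1, -, hk⟩ := ker_decomp
  have hk' := up_act k hk
  have hss : (MonoidAlgebra.single (Equiv.swap 0 1) 1 : QS (n + 2)) *
      MonoidAlgebra.single (Equiv.swap 0 1) 1 = 1 := by
    rw [MonoidAlgebra.single_mul_single, Equiv.swap_mul_self]
    simp [MonoidAlgebra.one_def]
  rw [map_mul]
  refine fin_alg (act (d + 1) (n + 2) x)
    (act (d + 1) (n + 2) (MonoidAlgebra.single (Equiv.swap 0 1) 1))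
    (act (d + 1) (n + 2) (JM (n + 1))) (act (d + 1) (n + 2) (upA (n + 1) (JM n)))
    (act (d + 1) (n + 2) (upA (n + 1) q)) (act (d + 1) (n + 2) (upA (n + 1) k)) (d : ℚ)
    ?_ ?_ ?_ ?_ ?_ hk'
  · rw [← map_mul, hss, map_one]
  · have := h 1
    rw [← MonoidAlgebra.one_def, mul_one, map_mul, map_add, AlgHom.commutes] at this
    exact this
  · have := h (Equiv.swap 0 1)
    rw [map_mul, map_mul, map_add, AlgHom.commutes] at this
    exact this
  · rw [fin_upA_JM, map_sub, map_mul, map_mul]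
  · have := congrArg (fun z => act (d + 1) (n + 2) (upA (n + 1) z)) h1
    simp only [map_one, map_add, map_mul, AlgHom.commutes] at this
    rw [Nat.cast_add, Nat.cast_one] at this
    simpa only [map_add, map_one] using this

theorem fin_of (d n : ℕ) (hn : d + 1 ≤ n + 1) 
    (ker_decomp : ∃ k q : QS (n + 1),
      1 = k + (JM n + algebraMap ℚ _ ((d + 1 : ℕ) : ℚ)) * q ∧
      (JM n + algebraMap ℚ _ ((d + 1 : ℕ) : ℚ)) * k = 0 ∧ act (d + 1) (n + 1) k = 0)
    (up_act : ∀ x : QS (n + 1), act (d + 1) (n + 1) x = 0 → 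
      act (d + 1) (n + 2) (upA (n + 1) x) = 0)
    (x : QS (n + 2))
    (h : ∀ g : Equiv.Perm (Fin (n + 2)), act (d + 1) (n + 2)
      (x * MonoidAlgebra.single g 1 * (JM (n + 1) + algebraMap ℚ _ (d : ℚ))) = 0) :
    act (d + 1) (n + 2) x = 0 := by
  have hpre : ∀ g : Equiv.Perm (Fin (n + 2)), 
      act (d + 1) (n + 2) (x * MonoidAlgebra.single (g * Equiv.swap 0 1) 1) = 
        - act (d + 1) (n + 2) (x * MonoidAlgebra.single g 1) := by
    intro g
    have := fin_pre d n ker_decomp up_act (x * MonoidAlgebra.single g 1) (by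
      intro g'
      rw [mul_assoc x, MonoidAlgebra.single_mul_single, mul_one]
      exact h (g * g'))
    rw [mul_assoc x, MonoidAlgebra.single_mul_single, mul_one] at this
    exact this
  set A := act (d + 1) (n + 2) with hA
  have hsw : ∀ (f : Equiv.Perm (Fin (n + 2))) (i j : Fin (n + 2)), i ≠ j → 
      A (x * MonoidAlgebra.single (f * Equiv.swap i j) 1) = 
        - A (x * MonoidAlgebra.single f 1) := by
    intro f i j hij
    obtain ⟨c, hc⟩ := isConj_iff.1 
      (Equiv.Perm.isConj_swap (w := (0 : Fin (n + 2))) (x := 1) (by simp) hij)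
    have e1 : f * Equiv.swap i j = (f * c * Equiv.swap 0 1) * c⁻¹ := by
      rw [← hc]; group
    have e2 : A (x * MonoidAlgebra.single (f * c * Equiv.swap 0 1 * c⁻¹) 1) = 
        A (x * MonoidAlgebra.single (f * c * Equiv.swap 0 1) 1) * 
          A (MonoidAlgebra.single c⁻¹ 1) := by
      rw [← map_mul, mul_assoc x, MonoidAlgebra.single_mul_single, mul_one]
    rw [e1, e2, fin_neg _ _ _ (hpre _), ← map_mul, mul_assoc x, MonoidAlgebra.single_mul_single,
      mul_one, mul_inv_cancel_right]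
  have hall : ∀ g : Equiv.Perm (Fin (n + 2)), 
      A (x * MonoidAlgebra.single g 1) = ((Equiv.Perm.sign g : ℤ) : ℚ) • A x := by
    intro g
    induction g using Equiv.Perm.swap_induction_on' with
    | one => 
      rw [← MonoidAlgebra.one_def, mul_one]
      simp
    | mul_swap f i j hij ih =>
      rw [hsw f i j hij, ih, map_mul, Equiv.Perm.sign_swap hij]
      push_cast
      module
  have hsum : A (x * alt (-1) (n + 2)) = ((n + 2).factorial : ℚ) • A x := by
    unfold alt
    rw [Finset.mul_sum, map_sum]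
    have : ∀ g : Equiv.Perm (Fin (n + 2)), 
        A (x * MonoidAlgebra.single g (sg (-1) g)) = A x := by
      intro g
      have e : (MonoidAlgebra.single g (sg (-1) g) : QS (n + 2)) = 
          (sg (-1) g) • MonoidAlgebra.single g 1 := by
        rw [MonoidAlgebra.smul_single, smul_eq_mul, mul_one]
      rw [e, mul_smul_comm, map_smul, hall, smul_smul]
      unfold sg
      rw [if_neg (by norm_num)]
      have : (((Equiv.Perm.sign g : ℤ) : ℚ)) * (((Equiv.Perm.sign g : ℤ) : ℚ)) = 1 := by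
        rw [← Int.cast_mul, Int.units_coe_mul_self, Int.cast_one]
      rw [this, one_smul]
    rw [Finset.sum_congr rfl fun g _ => this g, Finset.sum_const, Finset.card_univ, 
      Fintype.card_perm, Fintype.card_fin, ← Nat.cast_smul_eq_nsmul ℚ]
  rw [map_mul, hA, fin_alt (d + 1) (n + 2) (by omega), mul_zero] at hsum
  have hne : ((n + 2).factorial : ℚ) ≠ 0 := by exact_mod_cast (n + 2).factorial_ne_zero
  exact (smul_eq_zero.1 hsum.symm).resolve_left hne

/-- FIN from KER, with the two statements of KER as hypotheses -/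
theorem fin_step_of
    (ker_decomp : ∀ D n : ℕ, ∃ k q : QS (n + 1),
      1 = k + (JM n + algebraMap ℚ _ (D : ℚ)) * q ∧
      (JM n + algebraMap ℚ _ (D : ℚ)) * k = 0 ∧ act D (n + 1) k = 0)
    (up_act : ∀ (D n : ℕ) (x : QS n), act D n x = 0 → act D (n + 1) (upA n x) = 0)
    (d n : ℕ) (hn : d + 1 ≤ n + 1) (x : QS (n + 2))
    (h : ∀ g : Equiv.Perm (Fin (n + 2)), act (d + 1) (n + 2)
      (x * MonoidAlgebra.single g 1 * (JM (n + 1) + algebraMap ℚ _ (d : ℚ))) = 0) :
    act (d + 1) (n + 2) x = 0 :=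
  fin_of d n hn (ker_decomp (d + 1) n) (fun x => up_act (d + 1) (n + 1) x) x h

end Pool.Agent.Helper91.GP
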