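import Pool.Agent.Helper91.GP.Defs

/-!
# EXP: conditional expectation and traces (helper68)
-/

universe u v w

namespace Pool.Agent.Helper91.GP

open Pool.Agent.Helper96.SP

theorem cE_add (n : ℕ) (x y : QS (n + 1)) : cE n (x + y) = cE n x + cE n y := by
  unfold cE
  rw [← Finset.sum_add_distrib]
  apply Finset.sum_congr rfl
  intro g _
  rw [MonoidAlgebra.coeff_add, Finsupp.add_apply, MonoidAlgebra.single_add]

namespace EXPX

theorem cE_smul (n : ℕ) (c : ℚ) (x : QS (n + 1)) : cE n (c • x) = c • cE n x := by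
  unfold cE
  rw [Finset.smul_sum]
  apply Finset.sum_congr rfl
  intro g _
  rw [MonoidAlgebra.coeff_smul, Finsupp.smul_apply, MonoidAlgebra.smul_single]

theorem cE_zero (n : ℕ) : cE n (0 : QS (n + 1)) = 0 := by
  have := cE_smul n 0 (0 : QS (n + 1))
  rwa [zero_smul, zero_smul] at this

theorem cE_sum {ι : Type*} (s : Finset ι) (n : ℕ) (x : ι → QS (n + 1)) :
    cE n (∑ i ∈ s, x i) = ∑ i ∈ s, cE n (x i) := by
  classical
  induction s using Finset.induction_on with
  | empty => rw [Finset.sum_empty, Finset.sum_empty, cE_zero]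
  | insert a s ha ih => rw [Finset.sum_insert ha, Finset.sum_insert ha, cE_add, ih]

end EXPX

theorem cE_dec (n : ℕ) (p : Fin (n + 1)) (e : Equiv.Perm (Fin n)) :
    cE n (MonoidAlgebra.single (Equiv.Perm.decomposeFin.symm (p, e)) (1 : ℚ)) =
      if p = 0 then MonoidAlgebra.single e 1 else 0 := by
  classical
  unfold cE
  have h : ∀ g : Equiv.Perm (Fin n), Equiv.Perm.decomposeFin.symm (p, e) = up g → p = 0 ∧ e = g := by
    intro g hg
    unfold up at hg
    have := Equiv.Perm.decomposeFin.symm.injective hg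
    exact ⟨congrArg Prod.fst this, congrArg Prod.snd this⟩
  by_cases hp : p = 0
  · rw [if_pos hp, Finset.sum_eq_single e]
    · rw [MonoidAlgebra.coeff_single, hp]
      unfold up
      rw [Finsupp.single_eq_same]
    · intro g _ hg
      rw [MonoidAlgebra.coeff_single, Finsupp.single_eq_of_ne, MonoidAlgebra.single_zero]
      intro h2
      exact hg ((h g h2.symm).2).symm
    · intro h2
      exact absurd (Finset.mem_univ _) h2
  · rw [if_neg hp]
    apply Finset.sum_eq_zero
    intro g _
    rw [MonoidAlgebra.coeff_single, Finsupp.single_eq_of_ne, MonoidAlgebra.single_zero]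
    intro h2
    exact hp (h g h2.symm).1

namespace EXPX

/-- the general form -/
theorem cE_perm (n : ℕ) (h : Equiv.Perm (Fin (n + 1))) :
    cE n (MonoidAlgebra.single h (1 : ℚ)) =
      if h 0 = 0 then MonoidAlgebra.single (Equiv.Perm.decomposeFin h).2 1 else 0 := by
  obtain ⟨⟨p, e⟩, rfl⟩ := Equiv.Perm.decomposeFin.symm.surjective h
  rw [cE_dec, Equiv.Perm.decomposeFin_symm_apply_zero, Equiv.apply_symm_apply]

theorem dec_eq (n : ℕ) (p : Fin (n + 1)) (e : Equiv.Perm (Fin n)) :
    Equiv.Perm.decomposeFin.symm (p, e) = Equiv.swap 0 p * up e := by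
  apply Equiv.ext
  intro x
  rw [Equiv.Perm.mul_apply]
  unfold up
  refine Fin.cases ?_ (fun y => ?_) x
  · rw [Equiv.Perm.decomposeFin_symm_apply_zero, Equiv.Perm.decomposeFin_symm_apply_zero, Equiv.swap_apply_left]
  · rw [Equiv.Perm.decomposeFin_symm_apply_succ, Equiv.Perm.decomposeFin_symm_apply_succ, Equiv.swap_self]
    rfl

end EXPX

theorem cE_JM (n : ℕ) (p : Fin (n + 1)) (e : Equiv.Perm (Fin n)) :
    cE n (JM n * MonoidAlgebra.single (Equiv.Perm.decomposeFin.symm (p, e)) (1 : ℚ)) =
      if p = 0 then 0 else MonoidAlgebra.single e 1 := by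
  classical
  unfold JM
  rw [Finset.sum_mul, EXPX.cE_sum]
  have h1 : ∀ i : Fin n, cE n (MonoidAlgebra.single (Equiv.swap 0 i.succ) (1 : ℚ) *
      MonoidAlgebra.single (Equiv.Perm.decomposeFin.symm (p, e)) (1 : ℚ)) =
      if i.succ = p then MonoidAlgebra.single e 1 else 0 := by
    intro i
    rw [MonoidAlgebra.single_mul_single, one_mul]
    by_cases hi : i.succ = p
    · rw [if_pos hi, EXPX.dec_eq, ← mul_assoc, hi, Equiv.swap_mul_self, one_mul]
      have := cE_dec n 0 e
      rw [if_pos rfl] at this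
      exact this
    · rw [if_neg hi, EXPX.cE_perm, if_neg]
      rw [Equiv.Perm.mul_apply, Equiv.Perm.decomposeFin_symm_apply_zero]
      intro h0
      by_cases hp : p = 0
      · rw [hp, Equiv.swap_apply_left] at h0
        exact Fin.succ_ne_zero i h0
      · rw [Equiv.swap_apply_of_ne_of_ne hp (fun h => hi h.symm)] at h0
        exact hp h0
  rw [Finset.sum_congr rfl (fun i _ => h1 i)]
  by_cases hp : p = 0
  · rw [if_pos hp]
    apply Finset.sum_eq_zero
    intro i _
    rw [if_neg]
    rw [hp]
    exact Fin.succ_ne_zero i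
  · rw [if_neg hp]
    obtain ⟨j, rfl⟩ := Fin.exists_succ_eq.2 hp
    rw [Finset.sum_eq_single j]
    · rw [if_pos rfl]
    · intro i _ hij
      rw [if_neg]
      intro h
      exact hij (Fin.succ_injective _ h)
    · intro h
      exact absurd (Finset.mem_univ _) h

namespace EXPX

theorem trace_fun {W : Type*} [Fintype W] [DecidableEq W] (σ : W → W) :
    LinearMap.trace ℚ (W → ℚ) (LinearMap.funLeft ℚ ℚ σ) = ∑ w, if σ w = w then (1 : ℚ) else 0 := by
  rw [LinearMap.trace_eq_matrix_trace ℚ (Pi.basisFun ℚ W)]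
  unfold Matrix.trace
  apply Finset.sum_congr rfl
  intro w _
  rw [Matrix.diag_apply, LinearMap.toMatrix_apply, Pi.basisFun_repr, Pi.basisFun_apply,
    LinearMap.funLeft_apply, Pi.single_apply]

theorem tau_single (D n : ℕ) (g : Equiv.Perm (Fin n)) :
    tau D n (MonoidAlgebra.single g 1) = ∑ w : Fin n → Fin D, if w ∘ g = w then (1 : ℚ) else 0 := by
  classical
  unfold tau act
  rw [MonoidAlgebra.lift_single, one_smul]
  exact trace_fun _

theorem tau_add (D n : ℕ) (x y : QS n) : tau D n (x + y) = tau D n x + tau D n y := by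
  unfold tau
  rw [map_add, map_add]

theorem tau_smul (D n : ℕ) (c : ℚ) (x : QS n) : tau D n (c • x) = c * tau D n x := by
  unfold tau
  rw [map_smul, map_smul, smul_eq_mul]

theorem fix_iff (D n : ℕ) (p : Fin (n + 1)) (e : Equiv.Perm (Fin n)) (w : Fin (n + 1) → Fin D) :
    w ∘ (Equiv.Perm.decomposeFin.symm (p, e)) = w ↔
      w p = w 0 ∧ (fun i : Fin n => w i.succ) ∘ e = fun i : Fin n => w i.succ := by
  have key : w p = w 0 → ∀ y, w (Equiv.swap 0 p y) = w y := by
    intro h y
    by_cases h0 : y = 0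
    · rw [h0, Equiv.swap_apply_left, h]
    · by_cases h1 : y = p
      · rw [h1, Equiv.swap_apply_right, h]
      · rw [Equiv.swap_apply_of_ne_of_ne h0 h1]
  constructor
  · intro h
    have h0 : w p = w 0 := by
      have := congrFun h 0
      rwa [Function.comp_apply, Equiv.Perm.decomposeFin_symm_apply_zero] at this
    refine ⟨h0, ?_⟩
    funext x
    have := congrFun h x.succ
    rw [Function.comp_apply, Equiv.Perm.decomposeFin_symm_apply_succ, key h0] at this
    exact this
  · rintro ⟨h0, h1⟩
    funext x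
    refine Fin.cases ?_ (fun y => ?_) x
    · rw [Function.comp_apply, Equiv.Perm.decomposeFin_symm_apply_zero, h0]
    · rw [Function.comp_apply, Equiv.Perm.decomposeFin_symm_apply_succ, key h0]
      exact congrFun h1 y

theorem tau_dec (D n : ℕ) (p : Fin (n + 1)) (e : Equiv.Perm (Fin n)) :
    tau D (n + 1) (MonoidAlgebra.single (Equiv.Perm.decomposeFin.symm (p, e)) 1) =
      (if p = 0 then (D : ℚ) else 1) * tau D n (MonoidAlgebra.single e 1) := by
  classical
  rw [tau_single, tau_single]
  have h1 : ∑ w : Fin (n + 1) → Fin D, (if w ∘ (Equiv.Perm.decomposeFin.symm (p, e)) = w then (1 : ℚ) else 0) =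
      ∑ q : Fin D × (Fin n → Fin D), if (Fin.cons q.1 q.2 : Fin (n + 1) → Fin D) p = q.1 ∧ q.2 ∘ e = q.2 then (1 : ℚ) else 0 := by
    symm
    apply Fintype.sum_equiv (Fin.consEquiv (fun _ : Fin (n + 1) => Fin D))
    rintro ⟨a, v⟩
    have h2 := fix_iff D n p e (Fin.cons a v)
    simp only [Fin.cons_zero, Fin.cons_succ] at h2
    show (if (Fin.cons a v : Fin (n + 1) → Fin D) p = a ∧ v ∘ e = v then (1 : ℚ) else 0) =
      if (Fin.cons a v : Fin (n + 1) → Fin D) ∘ (Equiv.Perm.decomposeFin.symm (p, e)) = Fin.cons a v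
        then 1 else 0
    exact if_congr h2.symm rfl rfl
  rw [h1, Fintype.sum_prod_type, Finset.sum_comm, Finset.mul_sum]
  apply Finset.sum_congr rfl
  intro v _
  by_cases hv : v ∘ e = v
  · simp only [hv, and_true, if_true, mul_one]
    by_cases hp : p = 0
    · rw [if_pos hp]
      simp [hp]
    · rw [if_neg hp]
      obtain ⟨j, rfl⟩ := Fin.exists_succ_eq.2 hp
      simp only [Fin.cons_succ]
      rw [Finset.sum_ite_eq]
      simp
  · simp only [hv, and_false, if_false, Finset.sum_const_zero, mul_zero]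

end EXPX

/-- traces on words -/
theorem tau_succ (D n : ℕ) (x : QS (n + 1)) :
    tau D (n + 1) x = tau D n (cE n ((JM n + algebraMap ℚ _ (D : ℚ)) * x)) := by
  classical
  induction x using MonoidAlgebra.induction_linear with
  | zero =>
    rw [mul_zero, EXPX.cE_zero]
    unfold tau
    rw [map_zero, map_zero, map_zero, map_zero]
  | add x y hx hy => rw [EXPX.tau_add, hx, hy, mul_add, cE_add, EXPX.tau_add]
  | single h c =>
    obtain ⟨⟨p, e⟩, rfl⟩ := Equiv.Perm.decomposeFin.symm.surjective h
    have h1 : (MonoidAlgebra.single (Equiv.Perm.decomposeFin.symm (p, e)) c : QS (n + 1)) =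
        c • MonoidAlgebra.single (Equiv.Perm.decomposeFin.symm (p, e)) (1 : ℚ) := by
      rw [MonoidAlgebra.smul_single, smul_eq_mul, mul_one]
    rw [h1, mul_smul_comm, EXPX.cE_smul, EXPX.tau_smul, EXPX.tau_smul]
    congr 1
    rw [EXPX.tau_dec, add_mul, cE_add, EXPX.tau_add, cE_JM, ← Algebra.smul_def, EXPX.cE_smul,
      EXPX.tau_smul, cE_dec]
    by_cases hp : p = 0
    · rw [if_pos hp, if_pos hp, if_pos hp]
      have : tau D n (0 : QS n) = 0 := by
        unfold tau
        rw [map_zero, map_zero]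
      rw [this, zero_add]
    · rw [if_neg hp, if_neg hp, if_neg hp]
      have : tau D n (0 : QS n) = 0 := by
        unfold tau
        rw [map_zero, map_zero]
      rw [this, mul_zero, add_zero, one_mul]

end Pool.Agent.Helper91.GP
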