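import Pool.Agent.Helper91.GP.QSTAR
import Pool.Agent.Helper91.GP.QEXP
import Mathlib.LinearAlgebra.FiniteDimensional.Lemmas

/-!
# `-D` is not an eigenvalue of `JM` on words in `D` letters
-/

open CategoryTheory MonoidalCategory Limits BraidedCategory

universe u v w

namespace Pool.Agent.Helper91.GP

open Pool.Agent.TH90.AB Pool.Agent.TH90.Kim Pool.Agent.Helper96.Kim Pool.Agent.Helper96.SP

namespace KER

/-- The coefficient of `1` in `x^* x` is the sum of the squares of the coefficients. -/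
lemma coeff_adj_mul {n : ℕ} (x : QS n) : (adj x * x).coeff 1 =
    ∑ g : Equiv.Perm (Fin n), x.coeff g ^ 2 := by
  classical
  have h1 : ∀ g : Equiv.Perm (Fin n),
      (MonoidAlgebra.single g⁻¹ (x.coeff g) * x : QS n).coeff 1 = x.coeff g ^ 2 := by
    intro g
    rw [MonoidAlgebra.coeff_single_mul_eq_mul_coeff g, sq]
    intro m' _
    constructor
    · intro h
      rw [inv_mul_eq_one] at h
      exact h.symm
    · rintro rfl
      simp
  unfold adj
  rw [Finset.sum_mul, MonoidAlgebra.coeff_sum, Finsupp.finsetSum_apply]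
  exact Finset.sum_congr rfl fun g _ => h1 g

lemma eq_zero_of_adj_mul {n : ℕ} (x : QS n) (h : adj x * x = 0) : x = 0 := by
  have h1 := coeff_adj_mul x
  rw [h] at h1
  have h2 : ∑ g : Equiv.Perm (Fin n), x.coeff g ^ 2 = 0 := by
    rw [← h1]
    simp
  rw [Finset.sum_eq_zero_iff_of_nonneg (fun g _ => sq_nonneg _)] at h2
  ext g
  exact (pow_eq_zero_iff (two_ne_zero)).1 (h2 g (Finset.mem_univ _))

/-- A self-adjoint element splits `1`. -/
lemma decomp {n : ℕ} (S : QS n) (hS : adj S = S) : ∃ k q : QS n, 1 = k + S * q ∧ S * k = 0 := by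
  have hdim := LinearMap.finrank_range_add_finrank_ker (LinearMap.mulLeft ℚ S)
  have hdis : Disjoint (LinearMap.ker (LinearMap.mulLeft ℚ S))
      (LinearMap.range (LinearMap.mulLeft ℚ S)) := by
    rw [Submodule.disjoint_def]
    rintro x hx ⟨y, rfl⟩
    rw [LinearMap.mem_ker, LinearMap.mulLeft_apply, LinearMap.mulLeft_apply] at hx
    rw [LinearMap.mulLeft_apply]
    refine eq_zero_of_adj_mul _ ?_
    rw [adj_mul, hS, mul_assoc, hx, mul_zero]
  have htop := Submodule.eq_top_of_disjoint _ _ (by omega) hdis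
  have h1 : (1 : QS n) ∈ LinearMap.ker (LinearMap.mulLeft ℚ S) ⊔
      LinearMap.range (LinearMap.mulLeft ℚ S) := by
    rw [htop]
    exact Submodule.mem_top
  obtain ⟨k, hk, z, ⟨q, rfl⟩, h⟩ := Submodule.mem_sup.1 h1
  exact ⟨k, q, h.symm, hk⟩

end KER

theorem ker_decomp (D n : ℕ) : ∃ k q : QS (n + 1),
    1 = k + (JM n + algebraMap ℚ _ (D : ℚ)) * q ∧ (JM n + algebraMap ℚ _ (D : ℚ)) * k = 0 ∧
      act D (n + 1) k = 0 := by
  obtain ⟨k, q, h1, h2⟩ := KER.decomp (JM n + algebraMap ℚ _ (D : ℚ)) (adj_JM n D)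
  refine ⟨k, q, h1, h2, ?_⟩
  have h3 : tau D (n + 1) (k * adj k) = 0 := by
    rw [tau_succ, ← mul_assoc, h2, zero_mul]
    unfold cE tau
    simp
  refine tau_faithful D (n + 1) k ?_
  have h4 : tau D (n + 1) (adj k * k) = tau D (n + 1) (k * adj k) := by
    unfold tau
    rw [map_mul (act D (n + 1)) (adj k) k, map_mul (act D (n + 1)) k (adj k)]
    exact LinearMap.trace_mul_comm ℚ _ _
  rw [h4, h3]

namespace KER

lemma via_zero {n : ℕ} (g : Equiv.Perm (Fin n)) :
    Equiv.Perm.viaEmbeddingHom (Fin.addNatEmb 1) g (0 : Fin (n + 1)) = 0 := by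
  rw [Equiv.Perm.viaEmbeddingHom_apply]
  refine Equiv.Perm.viaEmbedding_apply_of_notMem _ _ _ ?_
  rintro ⟨i, hi⟩
  have := congrArg Fin.val hi
  simp at this

lemma via_succ {n : ℕ} (g : Equiv.Perm (Fin n)) (i : Fin n) :
    Equiv.Perm.viaEmbeddingHom (Fin.addNatEmb 1) g i.succ = (g i).succ := by
  rw [Equiv.Perm.viaEmbeddingHom_apply]
  exact Equiv.Perm.viaEmbedding_apply g (Fin.addNatEmb 1) i

lemma act_upA (D n : ℕ) (x : QS n) (f : (Fin (n + 1) → Fin D) → ℚ) (w : Fin (n + 1) → Fin D) :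
    act D (n + 1) (upA n x) f w =
      act D n x (fun v => f (Fin.cons (w 0) v)) (Fin.tail w) := by
  induction x using MonoidAlgebra.induction_linear with
  | zero => simp
  | add x y hx hy =>
    rw [map_add, map_add, map_add, LinearMap.add_apply, LinearMap.add_apply, Pi.add_apply,
      Pi.add_apply, hx, hy]
  | single g a =>
    have h1 : upA n (MonoidAlgebra.single g a) =
        MonoidAlgebra.single (Equiv.Perm.viaEmbeddingHom (Fin.addNatEmb 1) g) a := by
      unfold upA emb
      exact MonoidAlgebra.mapDomain_single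
    rw [h1, act_single, act_single]
    congr 2
    funext i
    refine Fin.cases ?_ (fun i => ?_) i
    · rw [Fin.cons_zero, Function.comp_apply, via_zero]
    · rw [Fin.cons_succ, Function.comp_apply, Function.comp_apply, via_succ]
      rfl

end KER

theorem up_act (D n : ℕ) (x : QS n) (h : act D n x = 0) : act D (n + 1) (upA n x) = 0 := by
  refine LinearMap.ext fun f => ?_
  funext w
  rw [KER.act_upA, h]
  rfl

end Pool.Agent.Helper91.GP
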