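import Pool.Agent.Helper91.GP.Defs

/-!
# The adjoint and positivity on words (package STAR, by helper28)
-/

open CategoryTheory MonoidalCategory Limits BraidedCategory

namespace Pool.Agent.Helper91.GP

open Pool.Agent.TH90.AB Pool.Agent.TH90.Kim Pool.Agent.Helper96.Kim Pool.Agent.Helper96.SP

theorem adj_add {n : ℕ} (x y : QS n) : adj (x + y) = adj x + adj y := by
  unfold adj
  rw [← Finset.sum_add_distrib]
  refine Finset.sum_congr rfl fun g _ => ?_
  rw [MonoidAlgebra.coeff_add, Finsupp.add_apply, MonoidAlgebra.single_add]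

theorem adj_single {n : ℕ} (g : Equiv.Perm (Fin n)) (a : ℚ) :
    adj (MonoidAlgebra.single g a) = MonoidAlgebra.single g⁻¹ a := by
  unfold adj
  rw [Finset.sum_eq_single g]
  · rw [MonoidAlgebra.coeff_single, Finsupp.single_eq_same]
  · intro h _ hne
    rw [MonoidAlgebra.coeff_single, Finsupp.single_eq_of_ne hne, MonoidAlgebra.single_zero]
  · simp

theorem adj_zero {n : ℕ} : adj (0 : QS n) = 0 := by
  unfold adj
  refine Finset.sum_eq_zero fun g _ => ?_
  rw [MonoidAlgebra.coeff_zero, Finsupp.zero_apply, MonoidAlgebra.single_zero]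

theorem adj_sum {n : ℕ} {ι : Type} (s : Finset ι) (f : ι → QS n) :
    adj (∑ i ∈ s, f i) = ∑ i ∈ s, adj (f i) := by
  classical
  induction s using Finset.induction_on with
  | empty => simp [adj_zero]
  | insert a s ha ih => rw [Finset.sum_insert ha, Finset.sum_insert ha, adj_add, ih]

theorem adj_mul {n : ℕ} (x y : QS n) : adj (x * y) = adj y * adj x := by
  induction x using MonoidAlgebra.induction_linear with
  | zero => rw [zero_mul, adj_zero, mul_zero]
  | add a b ha hb => rw [add_mul, adj_add, adj_add, ha, hb, mul_add]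
  | single g a =>
    induction y using MonoidAlgebra.induction_linear with
    | zero => rw [mul_zero, adj_zero, zero_mul]
    | add c d hc hd => rw [mul_add, adj_add, adj_add, hc, hd, add_mul]
    | single h b =>
      rw [MonoidAlgebra.single_mul_single, adj_single, adj_single, adj_single,
        MonoidAlgebra.single_mul_single, mul_inv_rev, mul_comm a b]

theorem adj_adj {n : ℕ} (x : QS n) : adj (adj x) = x := by
  induction x using MonoidAlgebra.induction_linear with
  | zero => rw [adj_zero, adj_zero]
  | add a b ha hb => rw [adj_add, adj_add, ha, hb]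
  | single g a => rw [adj_single, adj_single, inv_inv]

theorem adj_JM (n : ℕ) (c : ℚ) : adj (JM n + algebraMap ℚ _ c) = JM n + algebraMap ℚ _ c := by
  have h1 : adj (JM n) = JM n := by
    unfold JM
    rw [adj_sum]
    refine Finset.sum_congr rfl fun i _ => ?_
    rw [adj_single, Equiv.swap_inv]
  have h2 : adj (algebraMap ℚ (QS (n + 1)) c) = algebraMap ℚ (QS (n + 1)) c := by
    rw [MonoidAlgebra.coe_algebraMap, Function.comp_apply, adj_single, inv_one]
  rw [adj_add, h1, h2]

theorem act_single (D n : ℕ) (g : Equiv.Perm (Fin n)) (a : ℚ) (f : (Fin n → Fin D) → ℚ)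
    (w : Fin n → Fin D) : act D n (MonoidAlgebra.single g a) f w = a * f (w ∘ g) := by
  unfold act
  rw [MonoidAlgebra.lift_single]
  rfl

/-- the matrix of the action -/
noncomputable def mt (D n : ℕ) (x : QS n) : Matrix (Fin n → Fin D) (Fin n → Fin D) ℚ :=
  LinearMap.toMatrix' (act D n x)

theorem mt_adj (D n : ℕ) (x : QS n) : mt D n (adj x) = (mt D n x).transpose := by
  induction x using MonoidAlgebra.induction_linear with
  | zero => rw [adj_zero]; simp [mt]
  | add a b ha hb =>
    unfold mt at *
    rw [adj_add, map_add, map_add, map_add, map_add, ha, hb, Matrix.transpose_add]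
  | single g a =>
    rw [adj_single]
    ext w v
    rw [Matrix.transpose_apply]
    unfold mt
    rw [LinearMap.toMatrix'_apply, LinearMap.toMatrix'_apply, act_single, act_single]
    congr 1
    rw [Pi.single_apply, Pi.single_apply]
    have : (w ∘ ⇑g⁻¹ = v) ↔ (v ∘ ⇑g = w) := by
      constructor
      · rintro rfl
        ext i
        simp
      · rintro rfl
        ext i
        simp
    simp only [this]

theorem tau_eq (D n : ℕ) (x : QS n) : tau D n x = (mt D n x).trace := by
  unfold tau mt
  rw [LinearMap.trace_eq_matrix_trace ℚ (Pi.basisFun ℚ (Fin n → Fin D)), LinearMap.toMatrix_eq_toMatrix']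

theorem tau_sq (D n : ℕ) (x : QS n) :
    tau D n (adj x * x) = ∑ w, ∑ v, mt D n x v w * mt D n x v w := by
  rw [tau_eq]
  have h : mt D n (adj x * x) = (mt D n x).transpose * mt D n x := by
    rw [← mt_adj]
    unfold mt
    rw [map_mul, Module.End.mul_eq_comp, LinearMap.toMatrix'_comp]
  rw [h]
  rfl

theorem tau_nonneg (D n : ℕ) (x : QS n) : 0 ≤ tau D n (adj x * x) := by
  rw [tau_sq]
  exact Finset.sum_nonneg fun w _ => Finset.sum_nonneg fun v _ => mul_self_nonneg _

theorem tau_faithful (D n : ℕ) (x : QS n) (h : tau D n (adj x * x) = 0) : act D n x = 0 := by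
  rw [tau_sq] at h
  have h1 : mt D n x = 0 := by
    ext v w
    have h2 := (Finset.sum_eq_zero_iff_of_nonneg
      (fun w _ => Finset.sum_nonneg fun v _ => mul_self_nonneg _)).1 h w (Finset.mem_univ _)
    have h3 := (Finset.sum_eq_zero_iff_of_nonneg (fun v _ => mul_self_nonneg _)).1 h2 v (Finset.mem_univ _)
    exact mul_self_eq_zero.1 h3
  unfold mt at h1
  exact (LinearMap.toMatrix').map_eq_zero_iff.1 h1

end Pool.Agent.Helper91.GP
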