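import Pool.Agent.Helper91.GP.QOME
import Pool.Agent.Helper91.GP.QSTAR
import Pool.Agent.Helper91.GP.QKER
import Pool.Agent.Helper91.GP.QFIN

set_option autoImplicit false
open CategoryTheory MonoidalCategory Limits BraidedCategory

universe u v w

namespace Pool.Agent.Helper91.GP

open Pool.Agent.TH90.AB Pool.Agent.TH90.Kim Pool.Agent.Helper96.Kim Pool.Agent.Helper96.SP

theorem ome (D n : ℕ) (x : QS (n + 1)) (h : tau D n (cE n (adj x * x)) = 0) :
    act D (n + 1) x = 0 :=
  ome_of tau_nonneg tau_faithful up_act D n x h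

theorem core (d : ℕ) (I : ∀ n, Set (QS n))
    (hI : ∀ n, ∀ x ∈ I n, ∀ a b : QS n, a * x * b ∈ I n)
    (hc : ∀ n, ∀ x ∈ I (n + 1), cE n ((JM n + algebraMap ℚ _ (d : ℚ)) * x) ∈ I n)
    (h0 : ∀ n ≤ d + 1, ∀ x ∈ I n, x = 0) (n : ℕ) : ∀ x ∈ I n, act (d + 1) n x = 0 := by
  induction n with
  | zero => intro x hx; rw [h0 0 (by omega) x hx, map_zero]
  | succ n ih =>
    intro x hx
    by_cases hn : n + 1 ≤ d + 1
    · rw [h0 _ hn x hx, map_zero]
    · obtain ⟨m, rfl⟩ : ∃ m, n = m + 1 := ⟨n - 1, by omega⟩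
      apply fin_step_of ker_decomp up_act d m (by omega)
      intro g
      apply ome
      have hw : adj (x * MonoidAlgebra.single g 1 * (JM (m + 1) + algebraMap ℚ _ (d : ℚ))) *
          (x * MonoidAlgebra.single g 1 * (JM (m + 1) + algebraMap ℚ _ (d : ℚ))) =
          (JM (m + 1) + algebraMap ℚ _ (d : ℚ)) * (adj (x * MonoidAlgebra.single g 1) * x *
            (MonoidAlgebra.single g 1 * (JM (m + 1) + algebraMap ℚ _ (d : ℚ)))) := by
        rw [adj_mul, adj_JM]
        simp only [mul_assoc]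
      rw [hw, tau, ih _ (hc _ _ (hI (m + 2) x hx _ _)), map_zero]

end Pool.Agent.Helper91.GP
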