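import Pool.Agent.Helper96.SP.Defs2

/-!
# Growth of the number of summands of tensor powers: definitions
-/

open CategoryTheory MonoidalCategory Limits BraidedCategory

universe u v w

namespace Pool.Agent.Helper91.GP

open Pool.Agent.TH90.AB Pool.Agent.TH90.Kim Pool.Agent.Helper96.Kim Pool.Agent.Helper96.SP

noncomputable section

/-- The permutation action on the functions of words of length `n` in `D` letters. -/
def act (D n : ℕ) : QS n →ₐ[ℚ] Module.End ℚ ((Fin n → Fin D) → ℚ) :=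
  MonoidAlgebra.lift ℚ (Module.End ℚ ((Fin n → Fin D) → ℚ)) (Equiv.Perm (Fin n))
    { toFun := fun g => LinearMap.funLeft ℚ ℚ fun w : Fin n → Fin D => w ∘ g
      map_one' := rfl
      map_mul' := fun _ _ => rfl }

/-- The trace of the action on words. -/
def tau (D n : ℕ) (x : QS n) : ℚ := LinearMap.trace ℚ ((Fin n → Fin D) → ℚ) (act D n x)

/-- The image of the group algebra of `Perm (Fin n)` under `up`. -/
def upA (n : ℕ) : QS n →ₐ[ℚ] QS (n + 1) := emb (Fin.addNatEmb 1)

/-- The sum of the transpositions `(0 i)`. -/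
def JM (n : ℕ) : QS (n + 1) := ∑ i : Fin n, MonoidAlgebra.single (Equiv.swap 0 i.succ) 1

/-- The part supported on the permutations which fix `0`. -/
def cE (n : ℕ) (x : QS (n + 1)) : QS n :=
  ∑ g : Equiv.Perm (Fin n), MonoidAlgebra.single g (x.coeff (up g))

/-- Multiplication of the coefficients by the character `sg δ`. -/
def tw {n : ℕ} (δ : ℚ) (x : QS n) : QS n :=
  ∑ g : Equiv.Perm (Fin n), MonoidAlgebra.single g (sg δ g * x.coeff g)

section

variable {𝒜 : Type u} [Category.{v} 𝒜] [MonoidalCategory 𝒜] [SymmetricCategory 𝒜]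
  [Preadditive 𝒜] [MonoidalPreadditive 𝒜] [Linear ℚ 𝒜] [MonoidalLinear ℚ 𝒜]

/-- `X` is a direct sum of `k` objects which are not zero. -/
def IsSumOf (X : 𝒜) (k : ℕ) : Prop :=
  ∃ (N : Fin k → 𝒜) (i : ∀ a, N a ⟶ X) (r : ∀ a, X ⟶ N a),
    (∀ a, i a ≫ r a = 𝟙 (N a)) ∧ (∀ a b, a ≠ b → i a ≫ r b = 0) ∧ (∑ a, r a ≫ i a = 𝟙 X) ∧
      ∀ a, 𝟙 (N a) ≠ 0

end

end

end Pool.Agent.Helper91.GP
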