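import Pool.Agent.Helper91.GP.Defs
import Pool.Agent.Helper96.SP.PWD
import Pool.Agent.Helper96.SP.QWORDS

/-!
# Package BAS: the first powers
-/

open CategoryTheory MonoidalCategory Limits BraidedCategory

universe u v w

namespace Pool.Agent.Helper91.GP

open Pool.Agent.TH90.AB Pool.Agent.TH90.Kim Pool.Agent.Helper96.Kim Pool.Agent.Helper96.SP

set_option linter.unusedSectionVars false

namespace BASX

lemma tw_apply {n : ℕ} (δ : ℚ) (x : QS n) (g : Equiv.Perm (Fin n)) :
    (tw δ x).coeff g = sg δ g * x.coeff g := by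
  unfold tw
  rw [MonoidAlgebra.coeff_sum, Finsupp.finsetSum_apply, Finset.sum_eq_single g]
  · rw [MonoidAlgebra.coeff_single, Finsupp.single_eq_same]
  · intro h _ hne
    rw [MonoidAlgebra.coeff_single, Finsupp.single_eq_of_ne (Ne.symm hne)]
  · simp

lemma sg_self {n : ℕ} {δ : ℚ} (hδ : δ = 1 ∨ δ = -1) (g : Equiv.Perm (Fin n)) :
    sg δ g * sg δ g = 1 := by
  rcases hδ with rfl | rfl
  · simp [sg]
  · unfold sg
    rw [if_neg (by norm_num)]
    rw [← Int.cast_mul, ← Units.val_mul, Int.units_mul_self, Units.val_one, Int.cast_one]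

/-- A word with exactly one repetition. -/
lemma exists_word {n d : ℕ} (hd : n = d + 1) (i j : Fin n) (hij : i ≠ j) :
    ∃ w : Fin n → Fin d, ∀ p : Equiv.Perm (Fin n), w ∘ p = w ↔ p = 1 ∨ p = Equiv.swap i j := by
  classical
  have hc : Fintype.card {k : Fin n // k ≠ j} = Fintype.card (Fin d) := by
    rw [Fintype.card_subtype_compl, Fintype.card_fin, Fintype.card_fin,
      Fintype.card_subtype_eq, hd, Nat.add_sub_cancel]
  let e : {k : Fin n // k ≠ j} ≃ Fin d := Fintype.equivOfCardEq hc
  let r : Fin n → {k : Fin n // k ≠ j} := fun k => if h : k = j then ⟨i, hij⟩ else ⟨k, h⟩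
  have hrj : r j = ⟨i, hij⟩ := dif_pos rfl
  have hr : ∀ k, k ≠ j → (r k : Fin n) = k := by
    intro k hk
    change ((if h : k = j then (⟨i, hij⟩ : {k : Fin n // k ≠ j}) else ⟨k, h⟩ :
      {k : Fin n // k ≠ j}) : Fin n) = k
    rw [dif_neg hk]
  refine ⟨fun k => e (r k), fun p => ⟨fun h => ?_, ?_⟩⟩
  · have h1 : ∀ k, (r (p k) : Fin n) = r k := by
      intro k
      have h2 := congrFun h k
      exact congrArg Subtype.val (e.injective h2)
    have h3 : ∀ k, k ≠ i → k ≠ j → p k = k := by
      intro k hki hkj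
      have h4 := h1 k
      rw [hr k hkj] at h4
      by_cases h5 : p k = j
      · rw [h5, hrj] at h4
        exact absurd h4.symm hki
      · rw [hr _ h5] at h4
        exact h4
    have h4 : p i = i ∨ p i = j := by
      by_cases h5 : p i = j
      · exact Or.inr h5
      · left
        have h6 := h1 i
        rw [hr _ h5, hr _ hij] at h6
        exact h6
    have h5 : p j = i ∨ p j = j := by
      by_cases h5 : p j = j
      · exact Or.inr h5
      · left
        have h6 := h1 j
        rw [hr _ h5, hrj] at h6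
        exact h6
    rcases h4 with h4 | h4
    · left
      have h6 : p j = j := by
        rcases h5 with h5 | h5
        · exact absurd (p.injective (h5.trans h4.symm)).symm hij
        · exact h5
      ext1 k
      by_cases hki : k = i
      · rw [hki, h4]; rfl
      · by_cases hkj : k = j
        · rw [hkj, h6]; rfl
        · rw [h3 k hki hkj]; rfl
    · right
      have h6 : p j = i := by
        rcases h5 with h5 | h5
        · exact h5
        · exact absurd (p.injective (h4.trans h5.symm)) hij
      ext1 k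
      by_cases hki : k = i
      · rw [hki, h4, Equiv.swap_apply_left]
      · by_cases hkj : k = j
        · rw [hkj, h6, Equiv.swap_apply_right]
        · rw [h3 k hki hkj, Equiv.swap_apply_of_ne_of_ne hki hkj]
  · rintro (rfl | rfl)
    · rfl
    · funext k
      change e (r (Equiv.swap i j k)) = e (r k)
      congr 1
      apply Subtype.ext
      by_cases hki : k = i
      · rw [hki, Equiv.swap_apply_left, hrj, hr i hij]
      · by_cases hkj : k = j
        · rw [hkj, Equiv.swap_apply_right, hrj, hr i hij]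
        · rw [Equiv.swap_apply_of_ne_of_ne hki hkj]

lemma word_iff {n d : ℕ} (w : Fin n → Fin d) (g h : Equiv.Perm (Fin n)) :
    w ∘ (g⁻¹ : Equiv.Perm (Fin n)) = w ∘ (h⁻¹ : Equiv.Perm (Fin n)) ↔
      w ∘ (g⁻¹ * h : Equiv.Perm (Fin n)) = w := by
  constructor
  · intro h1
    funext k
    have h2 := congrFun h1 (h k)
    change w (g⁻¹ (h k)) = w (h⁻¹ (h k)) at h2
    have h3 : h⁻¹ (h k) = k := h.symm_apply_apply k
    rw [h3] at h2
    exact h2
  · intro h1
    funext k
    have h2 := congrFun h1 (h⁻¹ k)
    change w (g⁻¹ (h (h⁻¹ k))) = w (h⁻¹ k) at h2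
    have h3 : h (h⁻¹ k) = k := h.apply_symm_apply k
    rw [h3] at h2
    exact h2

end BASX

variable {𝒜 : Type u} [Category.{v} 𝒜] [MonoidalCategory 𝒜] [SymmetricCategory 𝒜]
  [Preadditive 𝒜] [MonoidalPreadditive 𝒜] [Linear ℚ 𝒜] [MonoidalLinear ℚ 𝒜]
  [hdual : ∀ X : 𝒜, HasRightDual X] {K : Type w} [Field K] [CharZero K] (F : Realisation 𝒜 K)

theorem base {M : 𝒜} {φ : Fam M} (hφ : PA φ) {δ : ℚ} (hδ : δ = 1 ∨ δ = -1)
    (hM : ∀ x, F.par M x = (δ : K) • x)
    (hne : rh φ (Module.finrank K (F.V M) + 1) (alt (-δ) _) ≠ 0)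
    (n : ℕ) (hn : n ≤ Module.finrank K (F.V M) + 1) (x : QS n) (hx : rh φ n (tw δ x) = 0) :
    x = 0 := by
  classical
  let b := Module.finBasis K (F.V M)
  obtain ⟨B, hB⟩ := wd_basis F b n
  have key : ∀ (w : Fin n → Fin (Module.finrank K (F.V M))) (h : Equiv.Perm (Fin n)),
      ∑ g : Equiv.Perm (Fin n), (if w ∘ (g⁻¹ * h : Equiv.Perm (Fin n)) = w then x.coeff g else 0) =
        0 := by
    intro w h
    have h1 : F.map (rh φ n (tw δ x)) (B w) = 0 := by
      rw [hx, F.map_zero']
    rw [hB, WD.rh_wd F hφ hδ hM] at h1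
    have h2 := congrArg (fun v => B.repr v (w ∘ (h⁻¹ : Equiv.Perm (Fin n)))) h1
    beta_reduce at h2
    rw [map_sum, Finsupp.coe_finsetSum, Finset.sum_apply, _root_.map_zero,
      Finsupp.zero_apply] at h2
    have h3 : ∀ g : Equiv.Perm (Fin n), (B.repr ((((tw δ x).coeff g * sg δ g : ℚ) : K) •
        wd F n ((fun j => b (w j)) ∘ (g⁻¹ : Equiv.Perm (Fin n))))) (w ∘ (h⁻¹ : Equiv.Perm (Fin n))) =
        (((if w ∘ (g⁻¹ * h : Equiv.Perm (Fin n)) = w then x.coeff g else 0) : ℚ) : K) := by
      intro g
      have h4 : wd F n ((fun j => b (w j)) ∘ (g⁻¹ : Equiv.Perm (Fin n))) =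
          B (w ∘ (g⁻¹ : Equiv.Perm (Fin n))) := (hB _).symm
      have h5 : (tw δ x).coeff g * sg δ g = x.coeff g := by
        rw [BASX.tw_apply, mul_comm, ← mul_assoc]
        rw [BASX.sg_self hδ, one_mul]
      rw [h4, h5, _root_.map_smul, Module.Basis.repr_self, Finsupp.smul_apply,
        Finsupp.single_apply]
      by_cases h7 : w ∘ (g⁻¹ * h : Equiv.Perm (Fin n)) = w
      · rw [if_pos h7, if_pos ((BASX.word_iff w g h).2 h7), smul_eq_mul, mul_one]
      · rw [if_neg h7, if_neg (fun h8 => h7 ((BASX.word_iff w g h).1 h8)), smul_zero,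
          Rat.cast_zero]
    rw [Finset.sum_congr rfl fun g _ => h3 g, ← Rat.cast_sum] at h2
    exact_mod_cast h2
  have hext : (∀ g, x.coeff g = 0) → x = 0 := by
    intro h
    ext g
    rw [h g]
    rfl
  rcases Nat.lt_or_ge (Module.finrank K (F.V M)) n with hlt | hge
  · have hn' : n = Module.finrank K (F.V M) + 1 := by omega
    have h1 : ∀ (h : Equiv.Perm (Fin n)) (i j : Fin n), i ≠ j →
        x.coeff (h * Equiv.swap i j) = -x.coeff h := by
      intro h i j hij
      obtain ⟨w, hw⟩ := BASX.exists_word hn' i j hij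
      have h2 := key w h
      have hne' : h ≠ h * Equiv.swap i j := by
        intro h3
        have h4 : Equiv.swap i j = 1 := by
          have := congrArg (fun z => h⁻¹ * z) h3
          beta_reduce at this
          rw [inv_mul_cancel, inv_mul_cancel_left] at this
          exact this.symm
        exact hij (Equiv.swap_eq_refl_iff.1 h4)
      have h3 : ∀ g : Equiv.Perm (Fin n),
          (if w ∘ (g⁻¹ * h : Equiv.Perm (Fin n)) = w then x.coeff g else 0) =
            (if g = h then x.coeff g else 0) + (if g = h * Equiv.swap i j then x.coeff g else 0) := by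
        intro g
        by_cases h4 : g = h
        · rw [if_pos h4, if_pos ((hw _).2 (Or.inl (by rw [h4, inv_mul_cancel]))),
            if_neg (by rw [h4]; exact hne'), add_zero]
        · by_cases h5 : g = h * Equiv.swap i j
          · rw [if_neg h4, if_pos h5, if_pos ((hw _).2 (Or.inr (by
              rw [h5, mul_inv_rev, Equiv.swap_inv, mul_assoc, inv_mul_cancel, mul_one]))), zero_add]
          · rw [if_neg h4, if_neg h5, if_neg, add_zero]
            intro h6
            rcases (hw _).1 h6 with h7 | h7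
            · exact h4 (by rw [inv_mul_eq_one] at h7; exact h7)
            · apply h5
              have h8 : Equiv.swap i j = (g⁻¹ * h)⁻¹ := by rw [h7, Equiv.swap_inv]
              rw [h8]
              group
      rw [Finset.sum_congr rfl fun g _ => h3 g, Finset.sum_add_distrib, Finset.sum_ite_eq',
        Finset.sum_ite_eq', if_pos (Finset.mem_univ _), if_pos (Finset.mem_univ _)] at h2
      linarith
    have h2 : ∀ g : Equiv.Perm (Fin n), x.coeff g = ((Equiv.Perm.sign g : ℤ) : ℚ) * x.coeff 1 := by
      intro g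
      induction g using Equiv.Perm.swap_induction_on' with
      | one => simp
      | mul_swap f i j hij ih =>
        rw [h1 f i j hij, ih, Equiv.Perm.sign_mul, Equiv.Perm.sign_swap hij]
        push_cast
        ring
    have h3 : tw δ x = x.coeff 1 • alt (-δ) n := by
      ext g
      rw [BASX.tw_apply, MonoidAlgebra.coeff_smul, Finsupp.smul_apply, WD.alt_apply, h2 g,
        ← WD.sg_sq hδ g, smul_eq_mul]
      have h6 := BASX.sg_self hδ g
      linear_combination (sg (-δ) g * x.coeff 1) * h6
    have h4 : x.coeff 1 = 0 := by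
      by_contra h5
      apply hne
      rw [h3] at hx
      have h6 : rh φ n (x.coeff 1 • alt (-δ) n) = x.coeff 1 • rh φ n (alt (-δ) n) :=
        map_smul (rho φ n) _ _
      rw [h6, smul_eq_zero] at hx
      rcases hx with hx | hx
      · exact absurd hx h5
      · subst hn'
        exact hx
    exact hext fun g => by rw [h2, h4, mul_zero]
  · apply hext
    intro h
    have h1 := key (Fin.castLE hge) h
    have h2 : ∀ g : Equiv.Perm (Fin n),
        (if (Fin.castLE hge) ∘ (g⁻¹ * h : Equiv.Perm (Fin n)) = Fin.castLE hge then x.coeff g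
          else 0) = if g = h then x.coeff g else 0 := by
      intro g
      refine if_congr ⟨fun h3 => ?_, fun h3 => ?_⟩ rfl rfl
      · have h4 : g⁻¹ * h = 1 := by
          ext1 k
          exact Fin.castLE_injective hge (congrFun h3 k)
        rw [inv_mul_eq_one] at h4
        exact h4
      · rw [h3, inv_mul_cancel]
        rfl
    rw [Finset.sum_congr rfl fun g _ => h2 g, Finset.sum_ite_eq', if_pos (Finset.mem_univ _)] at h1
    exact h1

end Pool.Agent.Helper91.GP
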