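import Pool.Agent.Helper91.GP.Defs

/-!
# Complete families of orthogonal idempotents give direct sums
-/

open CategoryTheory MonoidalCategory Limits BraidedCategory

universe u v w

namespace Pool.Agent.Helper91.GP

open Pool.Agent.TH90.AB Pool.Agent.TH90.Kim Pool.Agent.Helper96.Kim Pool.Agent.Helper96.SP

noncomputable section

theorem spl {𝒜 : Type u} [Category.{v} 𝒜] [Preadditive 𝒜] [IsIdempotentComplete 𝒜] [MonoidalCategory 𝒜] [SymmetricCategory 𝒜]
    [MonoidalPreadditive 𝒜] [Linear ℚ 𝒜] [MonoidalLinear ℚ 𝒜] (X : 𝒜) (s : ℕ) (e : Fin s → (X ⟶ X))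
    (h1 : ∀ i, e i ≫ e i = e i) (h2 : ∀ i j, i ≠ j → e i ≫ e j = 0) (h3 : ∑ i, e i = 𝟙 X) :
    IsSumOf X {i | e i ≠ 0}.ncard := by
  classical
  have hs : ∀ i, ∃ (Y : 𝒜) (ι : Y ⟶ X) (r : X ⟶ Y), ι ≫ r = 𝟙 Y ∧ r ≫ ι = e i := fun i =>
    IsIdempotentComplete.idempotents_split X (e i) (h1 i)
  choose Y ι r hιr hrι using hs
  have hc : {i | e i ≠ 0}.ncard = Fintype.card {i // e i ≠ 0} := by
    rw [← Nat.card_eq_fintype_card, ← Nat.card_coe_set_eq]
    rfl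
  rw [hc]
  let φ := (Fintype.equivFin {i // e i ≠ 0}).symm
  refine ⟨fun a => Y (φ a).1, fun a => ι (φ a).1, fun a => r (φ a).1, fun a => hιr _, ?_, ?_, ?_⟩
  · intro a b hab
    have hne : (φ a).1 ≠ (φ b).1 := fun h => hab (φ.injective (Subtype.ext h))
    have := h2 _ _ hne
    rw [← hrι, ← hrι] at this
    calc ι (φ a).1 ≫ r (φ b).1
        = (ι (φ a).1 ≫ r (φ a).1) ≫ (ι (φ a).1 ≫ r (φ b).1) ≫ (ι (φ b).1 ≫ r (φ b).1) := by
          rw [hιr, hιr, Category.id_comp, Category.comp_id]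
      _ = ι (φ a).1 ≫ ((r (φ a).1 ≫ ι (φ a).1) ≫ (r (φ b).1 ≫ ι (φ b).1)) ≫ r (φ b).1 := by
          simp only [Category.assoc]
      _ = 0 := by rw [this, zero_comp, comp_zero]
  · have e1 : ∑ a, r (φ a).1 ≫ ι (φ a).1 = ∑ x : {i // e i ≠ 0}, e x.1 := by
      rw [← Equiv.sum_comp φ]
      exact Finset.sum_congr rfl fun a _ => hrι _
    rw [e1, ← h3]
    rw [← Finset.sum_subtype (Finset.univ.filter fun i => e i ≠ 0) (by simp) e]
    exact Finset.sum_filter_ne_zero Finset.univ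
  · intro a h
    apply (φ a).2
    rw [← hrι, ← Category.comp_id (r (φ a).1), h, comp_zero, zero_comp]

end

end Pool.Agent.Helper91.GP
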