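import Pool.Agent.Helper91.GP.Defs
import Pool.Agent.Helper96.SP.PTR
import Pool.Agent.Helper96.SP.PWD

/-!
# Packages TW and CON: the twisted action and the contraction
-/

open CategoryTheory MonoidalCategory Limits BraidedCategory

universe u v w

namespace Pool.Agent.Helper91.GP

open Pool.Agent.TH90.AB Pool.Agent.TH90.Kim Pool.Agent.Helper96.Kim Pool.Agent.Helper96.SP
  Pool.Agent.Helper91.GP

set_option linter.unusedSectionVars false

namespace TWX

theorem tw_coeff {n : ℕ} (δ : ℚ) (x : QS n) (g : Equiv.Perm (Fin n)) :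
    (tw δ x).coeff g = sg δ g * x.coeff g := by
  unfold tw
  rw [MonoidAlgebra.coeff_sum, Finsupp.finsetSum_apply, Finset.sum_eq_single g]
  · rw [MonoidAlgebra.coeff_single, Finsupp.single_eq_same]
  · intro h _ hne
    rw [MonoidAlgebra.coeff_single, Finsupp.single_eq_of_ne (Ne.symm hne)]
  · simp

theorem cE_coeff {n : ℕ} (x : QS (n + 1)) (g : Equiv.Perm (Fin n)) :
    (cE n x).coeff g = x.coeff (up g) := by
  unfold cE
  rw [MonoidAlgebra.coeff_sum, Finsupp.finsetSum_apply, Finset.sum_eq_single g]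
  · rw [MonoidAlgebra.coeff_single, Finsupp.single_eq_same]
  · intro h _ hne
    rw [MonoidAlgebra.coeff_single, Finsupp.single_eq_of_ne (Ne.symm hne)]
  · simp

theorem ext' {n : ℕ} {x y : QS n} (h : ∀ g, x.coeff g = y.coeff g) : x = y :=
  MonoidAlgebra.ext (Finsupp.ext h)

theorem cE_add' (n : ℕ) (x y : QS (n + 1)) : cE n (x + y) = cE n x + cE n y := by
  refine ext' fun g => ?_
  rw [MonoidAlgebra.coeff_add, Finsupp.add_apply, cE_coeff, cE_coeff, cE_coeff,
    MonoidAlgebra.coeff_add, Finsupp.add_apply]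

theorem cE_zero' (n : ℕ) : cE n (0 : QS (n + 1)) = 0 := by
  refine ext' fun g => ?_
  rw [cE_coeff, MonoidAlgebra.coeff_zero, MonoidAlgebra.coeff_zero]
  rfl

theorem cE_sum' {ι : Type} (s : Finset ι) (n : ℕ) (f : ι → QS (n + 1)) :
    cE n (∑ i ∈ s, f i) = ∑ i ∈ s, cE n (f i) := by
  classical
  induction s using Finset.induction_on with
  | empty => rw [Finset.sum_empty, Finset.sum_empty, cE_zero']
  | insert a s ha ih => rw [Finset.sum_insert ha, Finset.sum_insert ha, cE_add', ih]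

theorem cE_single_ne {n : ℕ} {g : Equiv.Perm (Fin (n + 1))} (h : g 0 ≠ 0) (c : ℚ) :
    cE n (MonoidAlgebra.single g c) = 0 := by
  refine ext' fun e => ?_
  rw [cE_coeff, MonoidAlgebra.coeff_single, Finsupp.single_apply, if_neg, MonoidAlgebra.coeff_zero]
  · rfl
  · rintro rfl
    exact h (WD.up_zero e)

theorem up_inj {n : ℕ} {e f : Equiv.Perm (Fin n)} (h : up e = up f) : e = f := by
  ext i
  have h1 := congrArg (fun g : Equiv.Perm (Fin (n + 1)) => g i.succ) h
  simp only [WD.up_succ] at h1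
  exact congrArg Fin.val (Fin.succ_injective _ h1)

theorem cE_single_up {n : ℕ} (e : Equiv.Perm (Fin n)) (c : ℚ) :
    cE n (MonoidAlgebra.single (up e) c) = MonoidAlgebra.single e c := by
  refine ext' fun f => ?_
  rw [cE_coeff, MonoidAlgebra.coeff_single, MonoidAlgebra.coeff_single, Finsupp.single_apply,
    Finsupp.single_apply]
  by_cases h : e = f
  · rw [if_pos h, if_pos (by rw [h])]
  · rw [if_neg h, if_neg fun h' => h (up_inj h')]

theorem cE_JM' (n : ℕ) (p : Fin (n + 1)) (e : Equiv.Perm (Fin n)) (c : ℚ) :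
    cE n (JM n * MonoidAlgebra.single (Equiv.Perm.decomposeFin.symm (p, e)) c) =
      if p = 0 then 0 else MonoidAlgebra.single e c := by
  unfold JM
  rw [Finset.sum_mul, cE_sum']
  simp only [MonoidAlgebra.single_mul_single, one_mul, TRX.dec_eq]
  have h1 : ∀ i : Fin n, cE n (MonoidAlgebra.single
      (Equiv.swap 0 i.succ * (Equiv.swap 0 p * up e)) c) =
      if p = i.succ then MonoidAlgebra.single e c else 0 := by
    intro i
    by_cases h : p = i.succ
    · rw [if_pos h, h, ← mul_assoc, Equiv.swap_mul_self, one_mul, cE_single_up]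
    · rw [if_neg h, cE_single_ne]
      rw [Equiv.Perm.mul_apply, Equiv.Perm.mul_apply, WD.up_zero, Equiv.swap_apply_left]
      intro h2
      have h3 := congrArg (Equiv.swap 0 i.succ) h2
      rw [Equiv.swap_apply_self, Equiv.swap_apply_left] at h3
      exact h h3
  rw [Finset.sum_congr rfl fun i _ => h1 i]
  by_cases hp : p = 0
  · rw [if_pos hp]
    refine Finset.sum_eq_zero fun i _ => ?_
    rw [if_neg]
    rw [hp]
    exact (Fin.succ_ne_zero i).symm
  · rw [if_neg hp]
    obtain ⟨i, hi⟩ := Fin.exists_succ_eq.2 hp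
    rw [Finset.sum_eq_single i]
    · rw [if_pos hi.symm]
    · intro j _ hj
      rw [if_neg]
      intro h
      exact hj (Fin.succ_injective _ (hi.trans h)).symm
    · intro h
      exact absurd (Finset.mem_univ i) h

theorem tw_single {n : ℕ} (δ : ℚ) (g : Equiv.Perm (Fin n)) (c : ℚ) :
    tw δ (MonoidAlgebra.single g c) = MonoidAlgebra.single g (sg δ g * c) := by
  refine ext' fun f => ?_
  rw [tw_coeff, MonoidAlgebra.coeff_single, MonoidAlgebra.coeff_single, Finsupp.single_apply,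
    Finsupp.single_apply]
  by_cases h : g = f
  · rw [if_pos h, if_pos h, h]
  · rw [if_neg h, if_neg h, mul_zero]

theorem sg_ne {n : ℕ} {δ : ℚ} (g : Equiv.Perm (Fin n)) : sg δ g * sg δ g = 1 := by
  unfold sg
  split_ifs
  · norm_num
  · rcases Int.units_eq_one_or (Equiv.Perm.sign g) with h | h <;> rw [h] <;> norm_num

end TWX

open TWX

theorem tw_add {n : ℕ} (δ : ℚ) (x y : QS n) : tw δ (x + y) = tw δ x + tw δ y := by
  refine ext' fun g => ?_
  rw [MonoidAlgebra.coeff_add, Finsupp.add_apply, tw_coeff, tw_coeff, tw_coeff,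
    MonoidAlgebra.coeff_add, Finsupp.add_apply, mul_add]

theorem TWX.tw_zero {n : ℕ} (δ : ℚ) : tw δ (0 : QS n) = 0 := by
  refine ext' fun g => ?_
  rw [tw_coeff, MonoidAlgebra.coeff_zero]
  exact mul_zero _

theorem tw_mul {n : ℕ} {δ : ℚ} (hδ : δ = 1 ∨ δ = -1) (x y : QS n) :
    tw δ (x * y) = tw δ x * tw δ y := by
  induction x using MonoidAlgebra.induction_linear with
  | zero => rw [zero_mul, TWX.tw_zero, zero_mul]
  | add x x' hx hx' => rw [add_mul, tw_add, tw_add, add_mul, hx, hx']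
  | single g c =>
    induction y using MonoidAlgebra.induction_linear with
    | zero => rw [mul_zero, TWX.tw_zero, mul_zero]
    | add y y' hy hy' => rw [mul_add, tw_add, tw_add, mul_add, hy, hy']
    | single h c' =>
      rw [MonoidAlgebra.single_mul_single, tw_single, tw_single, tw_single,
        MonoidAlgebra.single_mul_single, WD.sg_mul]
      congr 1
      ring

theorem tw_one {n : ℕ} (δ : ℚ) : tw δ (1 : QS n) = 1 := by
  rw [MonoidAlgebra.one_def, tw_single, WD.sg_one, one_mul]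

theorem tw_zero_iff {n : ℕ} {δ : ℚ} (hδ : δ = 1 ∨ δ = -1) (x : QS n) : tw δ x = 0 ↔ x = 0 := by
  constructor
  · intro h
    refine ext' fun g => ?_
    have h1 := congrArg (fun z : QS n => sg δ g * z.coeff g) h
    simp only [tw_coeff, MonoidAlgebra.coeff_zero] at h1
    rw [← mul_assoc, sg_ne, one_mul] at h1
    rw [h1, MonoidAlgebra.coeff_zero]
    exact mul_zero _
  · rintro rfl
    exact TWX.tw_zero δ

section cat

variable {𝒜 : Type u} [Category.{v} 𝒜] [MonoidalCategory 𝒜] [SymmetricCategory 𝒜]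
  [Preadditive 𝒜] [MonoidalPreadditive 𝒜] [Linear ℚ 𝒜] [MonoidalLinear ℚ 𝒜]
  [hdual : ∀ X : 𝒜, HasRightDual X]

/-- The partial trace of the twisted action. -/
theorem TWX.ptr_tw {M : 𝒜} {φ : Fam M} (hφ : PA φ) {δ : ℚ} (hδ : δ = 1 ∨ δ = -1) {d : ℕ}
    (htr : tr (𝟙 M) = (δ * d : ℚ) • 𝟙 (𝟙_ 𝒜)) (n : ℕ) (x : QS (n + 1)) :
    ptr (rh φ (n + 1) (tw δ x) : T M n ⊗ M ⟶ T M n ⊗ M) =
      δ • rh φ n (tw δ (cE n ((JM n + algebraMap ℚ _ (d : ℚ)) * x))) := by
  induction x using MonoidAlgebra.induction_linear with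
  | zero =>
    rw [mul_zero, cE_zero', TWX.tw_zero, TWX.tw_zero, TRX.rh_zero, TRX.rh_zero, smul_zero]
    exact ptr_zero
  | add x y hx hy =>
    rw [mul_add, cE_add', tw_add, tw_add, TRX.rh_add, TRX.rh_add, smul_add, ← hx, ← hy]
    exact ptr_add _ _
  | single g c =>
    obtain ⟨⟨p, e⟩, rfl⟩ := Equiv.Perm.decomposeFin.symm.surjective g
    rw [add_mul, cE_add', cE_JM']
    have h1 : algebraMap ℚ (QS (n + 1)) (d : ℚ) *
        MonoidAlgebra.single (Equiv.Perm.decomposeFin.symm (p, e)) c =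
        MonoidAlgebra.single (Equiv.Perm.decomposeFin.symm (p, e)) (d * c) := by
      have h2 : algebraMap ℚ (QS (n + 1)) (d : ℚ) = MonoidAlgebra.single 1 (d : ℚ) := rfl
      rw [h2, MonoidAlgebra.single_mul_single, one_mul]
    rw [h1, tw_single, TRX.rh_single]
    refine (ptr_smul _ _).trans ?_
    rw [TRX.ptr_dec hφ htr]
    by_cases hp : p = 0
    · subst hp
      have h3 : Equiv.Perm.decomposeFin.symm (0, e) = up e := rfl
      rw [if_pos rfl, if_pos rfl, h3, cE_single_up, zero_add, tw_single, TRX.rh_single, WD.sg_up,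
        smul_smul, smul_smul]
      congr 1
      ring
    · have h3 : (Equiv.Perm.decomposeFin.symm (p, e)) 0 ≠ 0 := by
        rw [Equiv.Perm.decomposeFin_symm_apply_zero]
        exact hp
      rw [if_neg hp, if_neg hp, cE_single_ne h3, add_zero, tw_single, TRX.rh_single, one_smul,
        smul_smul, TRX.dec_eq, WD.sg_mul, WD.sg_up]
      congr 1
      have h4 : sg δ (Equiv.swap 0 p) = δ := by
        rcases hδ with rfl | rfl
        · unfold sg
          rw [if_pos rfl]
        · unfold sg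
          rw [if_neg (by norm_num), Equiv.Perm.sign_swap (Ne.symm hp)]
          norm_num
      rw [h4]
      ring

theorem contr {M : 𝒜} {φ : Fam M} (hφ : PA φ) {δ : ℚ} (hδ : δ = 1 ∨ δ = -1) {d : ℕ}
    (htr : tr (𝟙 M) = (δ * d : ℚ) • 𝟙 (𝟙_ 𝒜)) (n : ℕ) (x : QS (n + 1))
    (hx : rh φ (n + 1) (tw δ x) = 0) :
    rh φ n (tw δ (cE n ((JM n + algebraMap ℚ _ (d : ℚ)) * x))) = 0 := by
  have h1 := TWX.ptr_tw hφ hδ htr n x
  rw [hx] at h1
  have h2 : ptr (0 : T M n ⊗ M ⟶ T M n ⊗ M) = 0 := ptr_zero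
  have h3 := h2.symm.trans h1
  have hδ0 : δ ≠ 0 := by rcases hδ with rfl | rfl <;> norm_num
  exact (smul_eq_zero_iff_right hδ0).mp h3.symm

end cat

end Pool.Agent.Helper91.GP
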