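import Pool.Agent.Helper91.GP.Defs
import Pool.Agent.Helper96.SP.QNILT
import Pool.Agent.Helper96.SP.QWORDS

/-!
# Kimura-finite objects have few summands
-/

open CategoryTheory MonoidalCategory Limits BraidedCategory

universe u v w

namespace Pool.Agent.Helper91.GP

open Pool.Agent.TH90.AB Pool.Agent.TH90.Kim Pool.Agent.Helper96.Kim Pool.Agent.Helper96.SP

set_option linter.unusedSectionVars false

variable {𝒜 : Type u} [Category.{v} 𝒜] [MonoidalCategory 𝒜] [SymmetricCategory 𝒜]
  [Preadditive 𝒜] [MonoidalPreadditive 𝒜] [Linear ℚ 𝒜] [MonoidalLinear ℚ 𝒜]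
  [hdual : ∀ X : 𝒜, HasRightDual X] {K : Type w} [Field K] [CharZero K] (F : Realisation 𝒜 K)

namespace UPP

/-- A summand with zero realisation is zero, if invisible endomorphisms are nilpotent. -/
lemma part_zero {M P : 𝒜} (hnil : ∀ f : M ⟶ M, F.Inv f → ∃ k, pw f k = 0) (i : P ⟶ M) (r : M ⟶ P)
    (hir : i ≫ r = 𝟙 P) (h : ¬ ∃ x : F.V P, x ≠ 0) : 𝟙 P = 0 := by
  have h1 : F.Inv (r ≫ i) := by
    intro x
    rw [F.map_comp]
    have h2 : F.map r x = 0 := by
      by_contra h3
      exact h ⟨_, h3⟩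
    rw [h2, _root_.map_zero]
  obtain ⟨k, hk⟩ := hnil _ h1
  have h4 : ∀ k, i ≫ pw (r ≫ i) k = i := by
    intro k
    induction k with
    | zero => rw [pw_zero, Category.comp_id]
    | succ k ih =>
      rw [show pw (r ≫ i) (k + 1) = (r ≫ i) ≫ pw (r ≫ i) k from pw_succ _ _, Category.assoc,
        reassoc_of% hir, ih]
  have h5 := h4 k
  rw [hk, comp_zero] at h5
  rw [← hir, ← h5, zero_comp]

end UPP

theorem upp (hunit : ∀ f : 𝟙_ 𝒜 ⟶ 𝟙_ 𝒜, ∃ q : ℚ, f = q • 𝟙 (𝟙_ 𝒜)) {M : 𝒜}
    (hK : KimuraFinite M) (n k : ℕ) (h : IsSumOf (T M n) k) :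
    k ≤ Module.finrank K (F.V M) ^ n := by
  classical
  obtain ⟨N, i, r, h1, h2, -, h4⟩ := h
  obtain ⟨m, hm⟩ := nilt F hunit hK n
  have hnil : ∀ f : T M n ⟶ T M n, F.Inv f → ∃ k, pw f k = 0 := by
    intro f hf
    refine ⟨m, ?_⟩
    have := hm (List.replicate m (show End (T M n) from f)) (by
      intro x hx
      rw [List.eq_of_mem_replicate hx]
      exact hf) List.length_replicate
    rw [List.prod_replicate] at this
    exact this
  have hx : ∀ a, ∃ x : F.V (N a), x ≠ 0 := by
    intro a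
    by_contra hcon
    exact h4 a (UPP.part_zero F hnil (i a) (r a) (h1 a) hcon)
  choose x hx using hx
  have hli : LinearIndependent K fun a => F.map (i a) (x a) := by
    rw [linearIndependent_iff']
    intro s c hc a ha
    have h5 := congrArg (F.map (r a)) hc
    rw [map_sum, _root_.map_zero, Finset.sum_eq_single a] at h5
    · rw [_root_.map_smul, ← F.map_comp, h1 a, F.map_id] at h5
      exact (smul_eq_zero.1 h5).resolve_right (hx a)
    · intro b _ hb
      rw [_root_.map_smul, ← F.map_comp, h2 b a hb, F.map_zero', smul_zero]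
    · intro h; exact absurd ha h
  obtain ⟨B, -⟩ := wd_basis F (Module.finBasis K (F.V M)) n
  have h6 := hli.fintype_card_le_finrank
  rw [Module.finrank_eq_card_basis B, Fintype.card_fun, Fintype.card_fin, Fintype.card_fin,
    Fintype.card_fin] at h6
  exact h6

end Pool.Agent.Helper91.GP
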