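import Pool.Agent.Helper91.GP.Core
import Pool.Agent.Helper91.GP.QTW
import Pool.Agent.Helper91.GP.QBAS
import Pool.Agent.Helper91.GP.QUPP
import Pool.Agent.Helper91.GP.QSPL
import Pool.Agent.Helper91.GP.QCNT
import Pool.Agent.Helper96.SP.PPA
import Pool.Agent.Helper96.SP.PGEN
import Pool.Agent.Helper96.SP.PTR
import Pool.Agent.Helper96.KimRank

set_option autoImplicit false
set_option linter.unusedSectionVars false

open CategoryTheory MonoidalCategory Limits BraidedCategory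

universe u v w

namespace Pool.Agent.Helper91.GP

open Pool.Agent.TH90.AB Pool.Agent.TH90.Kim Pool.Agent.Helper96.Kim Pool.Agent.Helper96.SP

variable {𝒜 : Type u} [Category.{v} 𝒜] [MonoidalCategory 𝒜] [SymmetricCategory 𝒜]
  [Preadditive 𝒜] [MonoidalPreadditive 𝒜] [Linear ℚ 𝒜] [MonoidalLinear ℚ 𝒜]

lemma rh_mul' {M : 𝒜} (φ : Fam M) (n : ℕ) (x y : QS n) :
    rh φ n (x * y) = rh φ n y ≫ rh φ n x := by
  unfold rh
  rw [map_mul]
  rfl

lemma rh_one' {M : 𝒜} (φ : Fam M) (n : ℕ) : rh φ n 1 = 𝟙 _ := by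
  unfold rh
  rw [map_one]
  rfl

lemma rh_zero' {M : 𝒜} (φ : Fam M) (n : ℕ) : rh φ n 0 = 0 := by
  unfold rh
  rw [map_zero]

lemma tw_sum {n : ℕ} (δ : ℚ) {ι : Type} (s : Finset ι) (f : ι → QS n) :
    tw δ (∑ i ∈ s, f i) = ∑ i ∈ s, tw δ (f i) := by
  classical
  induction s using Finset.induction_on with
  | empty =>
    rw [Finset.sum_empty, Finset.sum_empty]
    unfold tw
    apply Finset.sum_eq_zero
    intro g _
    simp
  | insert a s ha ih => rw [Finset.sum_insert ha, Finset.sum_insert ha, tw_add, ih]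

lemma rh_sum {M : 𝒜} (φ : Fam M) (n : ℕ) {ι : Type} (s : Finset ι) (f : ι → QS n) :
    rh φ n (∑ i ∈ s, f i) = ∑ i ∈ s, rh φ n (f i) := by
  unfold rh
  exact map_sum (rho φ n) f s

variable [IsIdempotentComplete 𝒜] [hdual : ∀ X : 𝒜, HasRightDual X]
  {K : Type w} [Field K] [CharZero K] (F : Realisation 𝒜 K)

theorem gap (hunit : ∀ f : 𝟙_ 𝒜 ⟶ 𝟙_ 𝒜, ∃ q : ℚ, f = q • 𝟙 (𝟙_ 𝒜)) {M : 𝒜} {δ : ℚ}
    (hδ : δ = 1 ∨ δ = -1) (hM : ∀ x, F.par M x = (δ : K) • x) (h : ¬ KimuraFinite M) (n : ℕ) :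
    ∃ k, (Module.finrank K (F.V M) + 1) ^ n ≤
      k * (n + 1) ^ ((Module.finrank K (F.V M) + 1) ^ 2) ∧ IsSumOf (T M n) k := by
  classical
  obtain ⟨φ, hφ⟩ := exists_PA M
  have hδδ : δ * δ = 1 := by rcases hδ with rfl | rfl <;> norm_num
  have hne : rh φ (Module.finrank K (F.V M) + 1) (alt (-δ) _) ≠ 0 := by
    intro h0
    apply h
    have hε : -δ = 1 ∨ -δ = -1 := by
      rcases hδ with rfl | rfl
      · right; rfl
      · left; norm_num
    have h1 := (alt_iff hφ hε _).mpr h0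
    rcases hδ with rfl | rfl
    · exact kf_of_even h1
    · rw [neg_neg] at h1
      exact kf_of_odd h1
  have htr := F.tr_scalar hunit hδδ hM
  have hcore := core (Module.finrank K (F.V M)) (fun n => {x : QS n | rh φ n (tw δ x) = 0})
    (by
      intro n x hx a b
      change rh φ n (tw δ (a * x * b)) = 0
      change rh φ n (tw δ x) = 0 at hx
      rw [tw_mul hδ, tw_mul hδ, rh_mul', rh_mul', hx]
      simp)
    (by
      intro n x hx
      exact contr hφ hδ htr n x hx)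
    (by
      intro n hn x hx
      exact base F hφ hδ hM hne n hn x hx) n
  obtain ⟨s, e, h1, h2, h3, h4⟩ := cnt (Module.finrank K (F.V M) + 1) n
  have hs := spl (T M n) s (fun i => rh φ n (tw δ (e i)))
    (by
      intro i
      rw [← rh_mul', ← tw_mul hδ, h1])
    (by
      intro i j hij
      rw [← rh_mul', ← tw_mul hδ, h2 j i (Ne.symm hij), (tw_zero_iff hδ _).mpr rfl, rh_zero'])
    (by
      rw [← rh_sum, ← tw_sum, h3, tw_one, rh_one'])
  refine ⟨_, h4.trans (Nat.mul_le_mul_right _ (Set.ncard_le_ncard ?_ (Set.toFinite _))), hs⟩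
  intro i hi h5
  exact hi (hcore (e i) h5)

end Pool.Agent.Helper91.GP
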